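import Mathlib

set_option autoImplicit false

namespace Pool.Agent.H27

open Complex Set MeasureTheory Filter Topology Asymptotics

/-- The open right half plane. -/
def rhp : Set ℂ := {u : ℂ | 0 < u.re}

theorem isOpen_rhp : IsOpen rhp := isOpen_lt continuous_const continuous_re

theorem convex_rhp (a : ℝ) : Convex ℝ {u : ℂ | a < u.re} := convex_halfSpace_re_gt a

theorem integrableOn_rpow_exp {σ c : ℝ} (hσ : 0 < σ) (hc : 0 < c) :
    IntegrableOn (fun t : ℝ => t ^ (σ - 1) * Real.exp (-(c * t))) (Ioi 0) := by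
  have h := integrableOn_rpow_mul_exp_neg_mul_rpow (p := 1) (s := σ - 1) (b := c) (by linarith)
    one_pos hc
  refine h.congr_fun (fun t ht => ?_) measurableSet_Ioi
  simp

theorem integrableOn_cpow_exp {s u : ℂ} (hs : 0 < s.re) (hu : 0 < u.re) :
    IntegrableOn (fun t : ℝ => (t : ℂ) ^ (s - 1) * cexp (-(u * t))) (Ioi 0) := by
  have h := integrableOn_rpow_exp hs hu
  refine Integrable.mono' h ?_ ?_
  · refine ContinuousOn.aestronglyMeasurable ?_ measurableSet_Ioi
    refine ContinuousOn.mul ?_ (by fun_prop)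
    exact continuousOn_of_forall_continuousAt fun t ht =>
      continuousAt_ofReal_cpow_const _ _ (Or.inr <| ne_of_gt ht)
  · refine (ae_restrict_mem measurableSet_Ioi).mono fun t ht => ?_
    rw [norm_mul, norm_cpow_eq_rpow_re_of_pos ht, Complex.norm_exp]
    simp

theorem norm_cpow_exp {s u : ℂ} {t : ℝ} (ht : 0 < t) :
    ‖(t : ℂ) ^ (s - 1) * cexp (-(u * t))‖ = t ^ (s.re - 1) * Real.exp (-(u.re * t)) := by
  rw [norm_mul, norm_cpow_eq_rpow_re_of_pos ht, Complex.norm_exp]
  simp

theorem differentiableOn_laplace {s : ℂ} (hs : 0 < s.re) :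
    DifferentiableOn ℂ (fun u : ℂ => ∫ t : ℝ in Ioi 0, (t : ℂ) ^ (s - 1) * cexp (-(u * t))) rhp := by
  intro u₀ hu₀
  have hu₀' : 0 < u₀.re := hu₀
  refine DifferentiableAt.differentiableWithinAt ?_
  have hball : Metric.ball u₀ (u₀.re / 2) ∈ 𝓝 u₀ := Metric.ball_mem_nhds _ (by positivity)
  have key := hasDerivAt_integral_of_dominated_loc_of_deriv_le (𝕜 := ℂ)
    (μ := volume.restrict (Ioi (0 : ℝ)))
    (F := fun u t => (t : ℂ) ^ (s - 1) * cexp (-(u * t)))
    (F' := fun u t => (t : ℂ) ^ (s - 1) * (cexp (-(u * t)) * (-(t : ℂ))))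
    (x₀ := u₀) (s := Metric.ball u₀ (u₀.re / 2))
    (bound := fun t => t ^ ((s.re + 1) - 1) * Real.exp (-(u₀.re / 2 * t)))
    hball ?_ (integrableOn_cpow_exp hs hu₀') ?_ ?_ (integrableOn_rpow_exp (by linarith) (by linarith)) ?_
  · exact key.2.differentiableAt
  · refine Eventually.of_forall fun u => ?_
    refine ContinuousOn.aestronglyMeasurable ?_ measurableSet_Ioi
    refine ContinuousOn.mul ?_ (by fun_prop)
    exact continuousOn_of_forall_continuousAt fun t ht =>
      continuousAt_ofReal_cpow_const _ _ (Or.inr <| ne_of_gt ht)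
  · refine ContinuousOn.aestronglyMeasurable ?_ measurableSet_Ioi
    refine ContinuousOn.mul ?_ (by fun_prop)
    exact continuousOn_of_forall_continuousAt fun t ht =>
      continuousAt_ofReal_cpow_const _ _ (Or.inr <| ne_of_gt ht)
  · refine (ae_restrict_mem measurableSet_Ioi).mono fun t ht u hu => ?_
    have ht0 : 0 < t := ht
    rw [← mul_assoc, norm_mul, norm_cpow_exp ht0, norm_neg, Complex.norm_real, Real.norm_eq_abs,
      abs_of_pos ht0]
    have h1 : t ^ (s.re + 1 - 1) = t ^ (s.re - 1) * t := by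
      rw [← Real.rpow_add_one ht0.ne']; ring_nf
    rw [h1]
    have h2 : u₀.re / 2 ≤ u.re := by
      rw [mem_ball_iff_norm'] at hu
      have := (re_le_norm _).trans hu.le
      rw [sub_re] at this
      linarith
    have h3 : Real.exp (-(u.re * t)) ≤ Real.exp (-(u₀.re / 2 * t)) := by
      apply Real.exp_le_exp.mpr
      have := mul_le_mul_of_nonneg_right h2 ht0.le
      linarith
    calc t ^ (s.re - 1) * Real.exp (-(u.re * t)) * t
        = t ^ (s.re - 1) * t * Real.exp (-(u.re * t)) := by ring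
      _ ≤ _ := by gcongr
  · refine Eventually.of_forall fun t u _ => ?_
    have h1 : HasDerivAt (fun u : ℂ => -(u * (t : ℂ))) (-(t : ℂ)) u := by
      simpa using ((hasDerivAt_id u).mul_const (t : ℂ)).fun_neg
    exact (h1.cexp).const_mul _

theorem laplace_eq {s u : ℂ} (hs : 0 < s.re) (hu : 0 < u.re) :
    ∫ t : ℝ in Ioi 0, (t : ℂ) ^ (s - 1) * cexp (-(u * t)) = u ^ (-s) * Gamma s := by
  have hA : AnalyticOnNhd ℂ (fun u : ℂ => ∫ t : ℝ in Ioi 0, (t : ℂ) ^ (s - 1) * cexp (-(u * t))) rhp :=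
    (differentiableOn_laplace hs).analyticOnNhd isOpen_rhp
  have hB : AnalyticOnNhd ℂ (fun u : ℂ => u ^ (-s) * Gamma s) rhp := by
    refine DifferentiableOn.analyticOnNhd (fun u hu => ?_) isOpen_rhp
    have hu' : 0 < u.re := hu
    refine DifferentiableAt.differentiableWithinAt ?_
    refine DifferentiableAt.mul_const ?_ _
    exact (differentiableAt_id).cpow_const (Or.inl hu')
  have hpre : IsPreconnected rhp := (convex_rhp 0).isPreconnected
  have h1 : (1 : ℂ) ∈ rhp := by simp [rhp]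
  have hfreq : ∃ᶠ z in 𝓝[≠] (1 : ℂ),
      (fun u : ℂ => ∫ t : ℝ in Ioi 0, (t : ℂ) ^ (s - 1) * cexp (-(u * t))) z
        = (fun u : ℂ => u ^ (-s) * Gamma s) z := by
    have htend : Tendsto (fun x : ℝ => (x : ℂ)) (𝓝[≠] (1 : ℝ)) (𝓝[≠] (1 : ℂ)) := by
      refine tendsto_nhdsWithin_iff.mpr ⟨?_, ?_⟩
      · have : Tendsto (fun x : ℝ => (x : ℂ)) (𝓝 (1 : ℝ)) (𝓝 ((1 : ℝ) : ℂ)) :=
          Complex.continuous_ofReal.tendsto 1
        simpa using this.mono_left nhdsWithin_le_nhds
      · filter_upwards [self_mem_nhdsWithin] with x hx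
        simp only [mem_compl_iff, mem_singleton_iff] at hx ⊢
        exact_mod_cast hx
    refine htend.frequently ?_
    refine Eventually.frequently ?_
    have hpos : ∀ᶠ x : ℝ in 𝓝[≠] (1 : ℝ), 0 < x :=
      nhdsWithin_le_nhds (lt_mem_nhds one_pos)
    filter_upwards [hpos] with x hx
    rw [integral_cpow_mul_exp_neg_mul_Ioi hs hx]
    congr 1
    rw [cpow_neg, one_div, inv_cpow]
    rw [arg_ofReal_of_nonneg hx.le]
    exact Real.pi_pos.ne
  exact hA.eqOn_of_preconnected_of_frequently_eq hB hpre h1 hfreq hu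

end Pool.Agent.H27
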