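import Mathlib
import Pool.Agent.H27.A1

set_option autoImplicit false

namespace Pool.Agent.H27

open Complex Set MeasureTheory Filter Topology Asymptotics

/-- The linear form 1 + m 0 + m 1 * α. -/
noncomputable def pp (α : ℝ) (m : Fin 2 → ℕ) : ℝ := 1 + (m 0 : ℝ) + (m 1 : ℝ) * α

/-- The generating function. -/
noncomputable def GG (α : ℝ) (z : ℂ) : ℂ :=
  cexp (-z) * ((1 - cexp (-z))⁻¹ * (1 - cexp (-(α * z)))⁻¹)

theorem pp_pos {α : ℝ} (hα : 0 < α) (m : Fin 2 → ℕ) : 0 < pp α m := by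
  unfold pp; positivity

theorem norm_exp_neg_lt_one {z : ℂ} (hz : 0 < z.re) : ‖cexp (-z)‖ < 1 := by
  rw [Complex.norm_exp, Real.exp_lt_one_iff]
  simpa using hz

theorem hasSum_GG {α : ℝ} (hα : 0 < α) {z : ℂ} (hz : 0 < z.re) :
    HasSum (fun m : Fin 2 → ℕ => cexp (-(pp α m * z))) (GG α z) := by
  have hαz : 0 < ((α : ℂ) * z).re := by
    rw [re_ofReal_mul]; positivity
  have h1 := norm_exp_neg_lt_one hz
  have h2 := norm_exp_neg_lt_one hαz
  have hs1 : HasSum (fun n : ℕ => cexp (-z) ^ n) (1 - cexp (-z))⁻¹ := hasSum_geometric_of_norm_lt_one h1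
  have hs2 : HasSum (fun n : ℕ => cexp (-(α * z)) ^ n) (1 - cexp (-(α * z)))⁻¹ :=
    hasSum_geometric_of_norm_lt_one h2
  have hn1 : Summable (fun n : ℕ => ‖cexp (-z) ^ n‖) := by
    simp_rw [norm_pow]; exact summable_geometric_of_lt_one (norm_nonneg _) h1
  have hn2 : Summable (fun n : ℕ => ‖cexp (-(α * z)) ^ n‖) := by
    simp_rw [norm_pow]; exact summable_geometric_of_lt_one (norm_nonneg _) h2
  have hprod : HasSum (fun x : ℕ × ℕ => cexp (-z) ^ x.1 * cexp (-(α * z)) ^ x.2)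
      ((1 - cexp (-z))⁻¹ * (1 - cexp (-(α * z)))⁻¹) :=
    hs1.mul hs2 (summable_mul_of_summable_norm hn1 hn2)
  have hprod2 := hprod.mul_left (cexp (-z))
  have := (finTwoArrowEquiv ℕ).hasSum_iff.mpr hprod2
  refine this.congr_fun ?_
  intro m
  have h0 : finTwoArrowEquiv ℕ m = (m 0, m 1) := rfl
  simp only [Function.comp_apply, h0, ← Complex.exp_nat_mul, ← Complex.exp_add]
  congr 1
  unfold pp
  push_cast
  ring

theorem summable_pp {α : ℝ} (hα : 0 < α) {σ : ℝ} (hσ : 2 < σ) :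
    Summable (fun m : Fin 2 → ℕ => (pp α m) ^ (-σ)) := by
  set c : ℝ := min 1 α with hc
  have hc0 : 0 < c := lt_min one_pos hα
  let φ : (Fin 2 → ℕ) → (Fin 2 → ℤ) := fun m => ![(m 0 : ℤ) + 1, (m 1 : ℤ)]
  have hφ : Function.Injective φ := by
    intro m n h
    have h0 := congrFun h 0
    have h1 := congrFun h 1
    simp only [φ, Matrix.cons_val_zero, Matrix.cons_val_one] at h0 h1
    ext i
    fin_cases i
    · simp only [Fin.zero_eta]; omega
    · simp only [Fin.mk_one]; omega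
  have hsum := (EisensteinSeries.summable_one_div_norm_rpow hσ).comp_injective hφ
  refine Summable.of_nonneg_of_le (fun m => by have := pp_pos hα m; positivity) (fun m => ?_)
    (hsum.mul_left (c ^ (-σ)))
  have hnorm : ‖φ m‖ ≤ pp α m / c := by
    rw [pi_norm_le_iff_of_nonneg (by have := pp_pos hα m; positivity)]
    intro i
    have hc1 : c ≤ 1 := min_le_left _ _
    have hc2 : c ≤ α := min_le_right _ _
    rw [le_div_iff₀ hc0]
    fin_cases i
    · have : ‖φ m 0‖ = (m 0 : ℝ) + 1 := by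
        simp only [φ, Matrix.cons_val_zero]
        rw [Int.norm_eq_abs]; push_cast; rw [abs_of_nonneg (by positivity)]
      simp only [Fin.zero_eta, this]
      unfold pp
      have h1 : ((m 0 : ℝ) + 1) * c ≤ ((m 0 : ℝ) + 1) * 1 := by gcongr
      have h2 : 0 ≤ (m 1 : ℝ) * α := by positivity
      linarith
    · have : ‖φ m 1‖ = (m 1 : ℝ) := by
        simp only [φ, Matrix.cons_val_one]
        rw [Int.norm_eq_abs]; push_cast; rw [abs_of_nonneg (by positivity)]
      simp only [Fin.mk_one, this]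
      unfold pp
      have h1 : (m 1 : ℝ) * c ≤ (m 1 : ℝ) * α := by gcongr
      have h2 : (0 : ℝ) ≤ m 0 := by positivity
      linarith
  have hpos : 0 < ‖φ m‖ := by
    rw [norm_pos_iff]
    intro h
    have h0 := congrFun h 0
    simp only [φ, Matrix.cons_val_zero, Pi.zero_apply] at h0
    omega
  have hpp := pp_pos hα m
  have : c * ‖φ m‖ ≤ pp α m := by
    rw [le_div_iff₀ hc0] at hnorm; linarith
  calc (pp α m) ^ (-σ) ≤ (c * ‖φ m‖) ^ (-σ) :=
        Real.rpow_le_rpow_of_nonpos (by positivity) this (by linarith)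
    _ = c ^ (-σ) * ‖φ m‖ ^ (-σ) := Real.mul_rpow hc0.le hpos.le

theorem ofReal_mul_cpow {p : ℝ} (hp : 0 < p) {u : ℂ} (hu : u ≠ 0) (s : ℂ) :
    ((p : ℂ) * u) ^ s = (p : ℂ) ^ s * u ^ s := by
  have hp' : (p : ℂ) ≠ 0 := ofReal_ne_zero.mpr hp.ne'
  rw [cpow_def_of_ne_zero (mul_ne_zero hp' hu), log_ofReal_mul hp hu, cpow_def_of_ne_zero hp',
    cpow_def_of_ne_zero hu, ← Complex.exp_add, ofReal_log hp.le]
  ring_nf

/-- The Mellin transform of the rotated generating function. -/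
theorem mellin_GG {α : ℝ} (hα : 0 < α) {u : ℂ} (hu : 0 < u.re) {s : ℂ} (hs : 2 < s.re) :
    mellin (fun t : ℝ => GG α (u * t)) s =
      u ^ (-s) * Gamma s * ∑' m : Fin 2 → ℕ, (pp α m : ℂ) ^ (-s) := by
  have hs0 : 0 < s.re := by linarith
  have hu0 : u ≠ 0 := by rintro rfl; simp at hu
  have hint : ∀ m : Fin 2 → ℕ, IntegrableOn
      (fun t : ℝ => (t : ℂ) ^ (s - 1) * cexp (-((pp α m * u) * t))) (Ioi 0) := by
    intro m
    apply integrableOn_cpow_exp hs0
    rw [re_ofReal_mul]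
    have := pp_pos hα m
    positivity
  have hval : ∀ m : Fin 2 → ℕ, ∫ t : ℝ in Ioi 0, (t : ℂ) ^ (s - 1) * cexp (-((pp α m * u) * t))
      = (u ^ (-s) * Gamma s) * (pp α m : ℂ) ^ (-s) := by
    intro m
    rw [laplace_eq hs0, ofReal_mul_cpow (pp_pos hα m) hu0]
    · ring
    · rw [re_ofReal_mul]
      have := pp_pos hα m
      positivity
  have hnorm : ∀ m : Fin 2 → ℕ,
      ∫ t : ℝ in Ioi 0, ‖(t : ℂ) ^ (s - 1) * cexp (-((pp α m * u) * t))‖
      = (Real.Gamma s.re * u.re ^ (-s.re)) * (pp α m) ^ (-s.re) := by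
    intro m
    have hpp := pp_pos hα m
    have h1 : ∫ t : ℝ in Ioi 0, ‖(t : ℂ) ^ (s - 1) * cexp (-((pp α m * u) * t))‖
        = ∫ t : ℝ in Ioi 0, t ^ (s.re - 1) * Real.exp (-((pp α m * u.re) * t)) := by
      refine setIntegral_congr_fun measurableSet_Ioi (fun t ht => ?_)
      rw [norm_cpow_exp ht, re_ofReal_mul]
    rw [h1, Real.integral_rpow_mul_exp_neg_mul_Ioi hs0 (by positivity), one_div,
      Real.inv_rpow (by positivity), Real.mul_rpow hpp.le hu.le, Real.rpow_neg hu.le,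
      Real.rpow_neg hpp.le, mul_inv]
    ring
  have key := hasSum_integral_of_summable_integral_norm (μ := volume.restrict (Ioi (0 : ℝ)))
    (F := fun (m : Fin 2 → ℕ) (t : ℝ) => (t : ℂ) ^ (s - 1) * cexp (-((pp α m * u) * t)))
    hint (by simp_rw [hnorm]; exact (summable_pp hα hs).mul_left _)
  simp_rw [hval] at key
  have h2 : ∫ t : ℝ in Ioi 0, ∑' m : Fin 2 → ℕ, (t : ℂ) ^ (s - 1) * cexp (-((pp α m * u) * t))
      = mellin (fun t : ℝ => GG α (u * t)) s := by
    unfold mellin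
    refine setIntegral_congr_fun measurableSet_Ioi (fun t ht => ?_)
    simp only [smul_eq_mul]
    have ht0 : (0 : ℝ) < t := ht
    have hut : 0 < (u * t).re := by
      rw [mul_comm, re_ofReal_mul]; positivity
    rw [tsum_mul_left, ← (hasSum_GG hα hut).tsum_eq]
    simp_rw [mul_assoc]
  rw [h2] at key
  rw [← key.tsum_eq, tsum_mul_left]

end Pool.Agent.H27
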