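import Mathlib
import Pool.Agent.H27.A2

set_option autoImplicit false

namespace Pool.Agent.H27

open Complex Set MeasureTheory Filter Topology Asymptotics

/-- The entire function (1 - exp (-z)) / z. -/
noncomputable def psi : ℂ → ℂ := dslope (fun z : ℂ => 1 - cexp (-z)) 0

theorem psi_of_ne {z : ℂ} (hz : z ≠ 0) : psi z = (1 - cexp (-z)) / z := by
  unfold psi
  rw [dslope_of_ne _ hz, slope_def_field]
  simp

theorem psi_zero : psi 0 = 1 := by
  unfold psi
  rw [dslope_same]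
  have h : HasDerivAt (fun z : ℂ => 1 - cexp (-z)) (-(cexp (-0) * (-1))) 0 := by
    have h1 : HasDerivAt (fun z : ℂ => -z) (-1) 0 := by
      simpa using (hasDerivAt_id (0 : ℂ)).fun_neg
    exact (h1.cexp).const_sub 1
  rw [h.deriv]
  simp

theorem differentiable_psi : Differentiable ℂ psi := by
  unfold psi
  rw [← differentiableOn_univ, Complex.differentiableOn_dslope univ_mem]
  fun_prop

/-- The function z ^ 2 * exp z * GG α z, extended to 0. -/
noncomputable def gg (α : ℝ) (z : ℂ) : ℂ := (psi z)⁻¹ * ((α : ℂ) * psi (α * z))⁻¹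

theorem analyticAt_gg {α : ℝ} (hα : 0 < α) : AnalyticAt ℂ (gg α) 0 := by
  have hpsi : AnalyticAt ℂ psi 0 := differentiable_psi.analyticAt 0
  have h1 : AnalyticAt ℂ (fun z => (psi z)⁻¹) 0 := by
    refine hpsi.fun_inv ?_
    rw [psi_zero]; exact one_ne_zero
  have h2' : Differentiable ℂ (fun z : ℂ => (α : ℂ) * psi (α * z)) := by
    have := differentiable_psi
    fun_prop
  have h2 : AnalyticAt ℂ (fun z : ℂ => ((α : ℂ) * psi (α * z))⁻¹) 0 := by
    refine (h2'.analyticAt 0).fun_inv ?_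
    rw [mul_zero, psi_zero, mul_one]
    exact ofReal_ne_zero.mpr hα.ne'
  exact h1.mul h2

theorem GG_eq {α : ℝ} {z : ℂ} (hz : z ≠ 0) (hα : 0 < α) :
    GG α z = cexp (-z) * (gg α z / z ^ 2) := by
  have hα' : (α : ℂ) ≠ 0 := ofReal_ne_zero.mpr hα.ne'
  unfold GG gg
  have e : (α : ℂ) * ((1 - cexp (-(α * z))) / (α * z)) = (1 - cexp (-(α * z))) / z := by
    field_simp
  rw [psi_of_ne hz, psi_of_ne (mul_ne_zero hα' hz), e, inv_div, inv_div]
  have e2 : z / (1 - cexp (-z)) * (z / (1 - cexp (-(α * z)))) / z ^ 2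
      = (1 - cexp (-z))⁻¹ * (1 - cexp (-(α * z)))⁻¹ := by
    have hz2 : z ^ 2 ≠ 0 := pow_ne_zero _ hz
    rw [div_eq_mul_inv, div_eq_mul_inv, div_eq_mul_inv]
    field_simp
  rw [e2]

theorem exists_beta {α : ℝ} (hα : 0 < α) : ∃ β : ℕ → ℂ, ∀ n : ℕ,
    (fun z : ℂ => gg α z - ∑ j ∈ Finset.range n, β j * z ^ j) =O[𝓝 0] fun z => ‖z‖ ^ n := by
  obtain ⟨p, hp⟩ := analyticAt_gg hα
  refine ⟨fun j => p.coeff j, fun n => ?_⟩
  have h := hp.isBigO_sub_partialSum_pow n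
  refine h.congr_left (fun z => ?_)
  rw [zero_add, FormalMultilinearSeries.partialSum]
  congr 1
  refine Finset.sum_congr rfl (fun j _ => ?_)
  rw [FormalMultilinearSeries.apply_eq_pow_smul_coeff, smul_eq_mul, mul_comm]

/-- The regularised generating function. -/
noncomputable def hh (α : ℝ) (β : ℕ → ℂ) (n : ℕ) (z : ℂ) : ℂ :=
  GG α z - ∑ j ∈ Finset.range n, β j * (cexp (-z) * (z ^ j / z ^ 2))

theorem hh_eq {α : ℝ} (hα : 0 < α) (β : ℕ → ℂ) (n : ℕ) {z : ℂ} (hz : z ≠ 0) :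
    hh α β n z = cexp (-z) * ((gg α z - ∑ j ∈ Finset.range n, β j * z ^ j) / z ^ 2) := by
  unfold hh
  rw [GG_eq hz hα, sub_div, mul_sub, Finset.sum_div, Finset.mul_sum]
  congr 1
  refine Finset.sum_congr rfl (fun j _ => ?_)
  ring

theorem one_sub_exp_ne_zero {z : ℂ} (hz : 0 < z.re) : 1 - cexp (-z) ≠ 0 := by
  intro h
  have h1 := norm_exp_neg_lt_one hz
  rw [← sub_eq_zero.mp h] at h1
  simp at h1

theorem differentiableOn_GG {α : ℝ} (hα : 0 < α) : DifferentiableOn ℂ (GG α) rhp := by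
  intro z hz
  have hz' : 0 < z.re := hz
  have hαz : 0 < ((α : ℂ) * z).re := by
    rw [re_ofReal_mul]; positivity
  have h1 := one_sub_exp_ne_zero hz'
  have h2 := one_sub_exp_ne_zero hαz
  unfold GG
  refine DifferentiableAt.differentiableWithinAt ?_
  refine DifferentiableAt.mul (by fun_prop) (DifferentiableAt.mul ?_ ?_)
  · exact DifferentiableAt.fun_inv (by fun_prop) h1
  · exact DifferentiableAt.fun_inv (by fun_prop) h2

theorem differentiableOn_hh {α : ℝ} (hα : 0 < α) (β : ℕ → ℂ) (n : ℕ) :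
    DifferentiableOn ℂ (hh α β n) rhp := by
  intro z hz
  have hz' : 0 < z.re := hz
  have hz0 : z ≠ 0 := by rintro rfl; simp at hz'
  have h1 := (differentiableOn_GG hα).differentiableAt (isOpen_rhp.mem_nhds hz)
  unfold hh
  refine DifferentiableAt.differentiableWithinAt ?_
  refine DifferentiableAt.fun_sub h1 ?_
  refine DifferentiableAt.fun_sum (fun j _ => ?_)
  refine DifferentiableAt.const_mul ?_ _
  refine DifferentiableAt.mul (by fun_prop) ?_
  exact DifferentiableAt.fun_div (by fun_prop) (by fun_prop) (pow_ne_zero _ hz0)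

theorem continuousOn_hh_comp {α : ℝ} (hα : 0 < α) (β : ℕ → ℂ) (n : ℕ) {u : ℂ} (hu : 0 < u.re) :
    ContinuousOn (fun t : ℝ => hh α β n (u * t)) (Ioi 0) := by
  refine (differentiableOn_hh hα β n).continuousOn.comp (by fun_prop) (fun t ht => ?_)
  have ht0 : (0 : ℝ) < t := ht
  change 0 < (u * t).re
  rw [mul_comm, re_ofReal_mul]; positivity

theorem hh_isBigO_zero {α : ℝ} (hα : 0 < α) {β : ℕ → ℂ}
    (hβ : ∀ n : ℕ, (fun z : ℂ => gg α z - ∑ j ∈ Finset.range n, β j * z ^ j) =O[𝓝 0]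
      fun z => ‖z‖ ^ n) (n : ℕ) {u : ℂ} (hu : 0 < u.re) :
    (fun t : ℝ => hh α β n (u * t)) =O[𝓝[>] 0] (fun t : ℝ => t ^ (-(2 - (n : ℝ)))) := by
  have hu0 : u ≠ 0 := by rintro rfl; simp at hu
  have htend : Tendsto (fun t : ℝ => u * (t : ℂ)) (𝓝[>] 0) (𝓝 0) := by
    have : Tendsto (fun t : ℝ => u * (t : ℂ)) (𝓝 0) (𝓝 (u * ((0 : ℝ) : ℂ))) :=
      (continuous_const.mul Complex.continuous_ofReal).tendsto 0
    simpa using this.mono_left nhdsWithin_le_nhds
  have h1 := (hβ n).comp_tendsto htend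
  have h2 : (fun t : ℝ => cexp (-(u * t))) =O[𝓝[>] 0] (fun _ : ℝ => (1 : ℝ)) := by
    have hc : Tendsto (fun t : ℝ => cexp (-(u * t))) (𝓝[>] 0) (𝓝 (cexp (-0))) :=
      (Complex.continuous_exp.tendsto _).comp (htend.neg)
    exact hc.isBigO_one ℝ
  have h3 : (fun t : ℝ => ((u * t) ^ 2)⁻¹) =O[𝓝[>] 0] (fun t : ℝ => (t ^ 2)⁻¹) := by
    refine IsBigO.of_bound (‖(u ^ 2)⁻¹‖) (Eventually.of_forall fun t => ?_)
    rw [mul_pow, mul_inv, norm_mul]
    gcongr
    simp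
  have h4 : (fun z : ℝ => ‖u * (z : ℂ)‖ ^ n) =O[𝓝[>] 0] (fun t : ℝ => t ^ n) := by
    refine IsBigO.of_bound (‖u‖ ^ n) (Eventually.of_forall fun t => ?_)
    simp [mul_pow]
  have h5 := (h2.mul ((h1.trans h4).mul h3))
  refine (h5.congr' ?_ ?_)
  · filter_upwards [self_mem_nhdsWithin] with t ht
    have ht0 : (0 : ℝ) < t := ht
    have hne : u * (t : ℂ) ≠ 0 := mul_ne_zero hu0 (ofReal_ne_zero.mpr ht0.ne')
    rw [hh_eq hα β n hne]
    simp only [Function.comp_apply, div_eq_mul_inv]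
  · filter_upwards [self_mem_nhdsWithin] with t ht
    have ht0 : (0 : ℝ) < t := ht
    rw [one_mul, neg_sub, Real.rpow_sub ht0, Real.rpow_natCast, div_eq_mul_inv]
    norm_cast

theorem GG_isBigO_top {α : ℝ} (hα : 0 < α) {u : ℂ} (hu : 0 < u.re) :
    (fun t : ℝ => GG α (u * t)) =O[atTop] (fun t : ℝ => Real.exp (-(u.re / 2) * t)) := by
  have haux : ∀ c : ℝ, 0 < c →
      (fun t : ℝ => (1 - cexp (-(((c : ℂ) * (u * t))))  )⁻¹) =O[atTop] (fun _ : ℝ => (1 : ℝ)) := by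
    intro c hc
    have h0 : Tendsto (fun t : ℝ => cexp (-((c : ℂ) * (u * t)))) atTop (𝓝 0) := by
      rw [tendsto_zero_iff_norm_tendsto_zero]
      have : ∀ t : ℝ, ‖cexp (-((c : ℂ) * (u * t)))‖ = Real.exp (-((c * u.re) * t)) := by
        intro t
        rw [Complex.norm_exp, neg_re, re_ofReal_mul, mul_comm u, re_ofReal_mul]
        ring_nf
      simp_rw [this]
      refine Real.tendsto_exp_neg_atTop_nhds_zero.comp ?_
      exact tendsto_id.const_mul_atTop (by positivity)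
    have h1 : Tendsto (fun t : ℝ => (1 - cexp (-((c : ℂ) * (u * t))))⁻¹) atTop (𝓝 (1 - 0)⁻¹) := by
      refine Tendsto.inv₀ (tendsto_const_nhds.sub h0) (by simp)
    exact h1.isBigO_one ℝ
  have h1 := haux 1 one_pos
  have h2 := haux α hα
  have h3 : (fun t : ℝ => cexp (-(u * t))) =O[atTop] (fun t : ℝ => Real.exp (-(u.re / 2) * t)) := by
    refine IsBigO.of_bound 1 ?_
    filter_upwards [eventually_ge_atTop (0 : ℝ)] with t ht
    rw [Complex.norm_exp, one_mul, Real.norm_eq_abs, Real.abs_exp, Real.exp_le_exp, neg_re, mul_comm u,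
      re_ofReal_mul]
    have : 0 ≤ t * u.re := by positivity
    linarith
  have h4 := h3.mul (h1.mul h2)
  refine h4.congr (fun t => ?_) (fun t => ?_)
  · unfold GG
    simp
  · simp

theorem term_isBigO_top (j : ℕ) {u : ℂ} (hu : 0 < u.re) :
    (fun t : ℝ => cexp (-(u * t)) * ((u * t) ^ j / (u * t) ^ 2)) =O[atTop]
      (fun t : ℝ => Real.exp (-(u.re / 2) * t)) := by
  have h1 : (fun t : ℝ => cexp (-(u * t)) * ((u * t) ^ j / (u * t) ^ 2)) =O[atTop]
      (fun t : ℝ => Real.exp (-(u.re * t)) * t ^ j) := by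
    refine IsBigO.of_bound (‖u ^ j / u ^ 2‖) ?_
    filter_upwards [eventually_ge_atTop (1 : ℝ)] with t ht
    have ht0 : 0 < t := by linarith
    have e1 : (u * (t : ℂ)) ^ j / (u * t) ^ 2 = (u ^ j / u ^ 2) * ((t : ℂ) ^ j / (t : ℂ) ^ 2) := by
      rw [mul_pow, mul_pow, mul_div_mul_comm]
    rw [e1, norm_mul, norm_mul, norm_mul, Complex.norm_exp]
    have e2 : ‖(t : ℂ) ^ j / (t : ℂ) ^ 2‖ ≤ t ^ j := by
      rw [norm_div, norm_pow, norm_pow, Complex.norm_real, Real.norm_eq_abs, abs_of_pos ht0]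
      apply div_le_self (by positivity)
      exact one_le_pow₀ ht
    have e3 : (-(u * (t : ℂ))).re = -(u.re * t) := by simp
    rw [e3, Real.norm_eq_abs, Real.norm_eq_abs, Real.abs_exp, abs_of_pos (by positivity : 0 < t ^ j)]
    calc Real.exp (-(u.re * t)) * (‖u ^ j / u ^ 2‖ * ‖(t : ℂ) ^ j / (t : ℂ) ^ 2‖)
        ≤ Real.exp (-(u.re * t)) * (‖u ^ j / u ^ 2‖ * t ^ j) := by gcongr
      _ = _ := by ring
  have h2 : (fun t : ℝ => t ^ j) =O[atTop] (fun t : ℝ => Real.exp (u.re / 2 * t)) := by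
    exact (isLittleO_pow_exp_pos_mul_atTop j (by positivity)).isBigO
  refine h1.trans ?_
  have h3 := (isBigO_refl (fun t : ℝ => Real.exp (-(u.re * t))) atTop).mul h2
  refine h3.congr_right (fun t => ?_)
  rw [← Real.exp_add]
  ring_nf

theorem hh_isBigO_top {α : ℝ} (hα : 0 < α) (β : ℕ → ℂ) (n : ℕ) {u : ℂ} (hu : 0 < u.re) :
    (fun t : ℝ => hh α β n (u * t)) =O[atTop] (fun t : ℝ => Real.exp (-(u.re / 2) * t)) := by
  unfold hh
  refine (GG_isBigO_top hα hu).sub ?_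
  refine IsBigO.fun_sum (fun j _ => ?_)
  exact (term_isBigO_top j hu).const_mul_left _

theorem mellinConvergent_hh {α : ℝ} (hα : 0 < α) {β : ℕ → ℂ}
    (hβ : ∀ n : ℕ, (fun z : ℂ => gg α z - ∑ j ∈ Finset.range n, β j * z ^ j) =O[𝓝 0]
      fun z => ‖z‖ ^ n) (n : ℕ) {u : ℂ} (hu : 0 < u.re) {s : ℂ} (hs : 2 - (n : ℝ) < s.re) :
    MellinConvergent (fun t : ℝ => hh α β n (u * t)) s :=
  mellinConvergent_of_isBigO_rpow_exp (a := u.re / 2) (by positivity)
    ((continuousOn_hh_comp hα β n hu).locallyIntegrableOn measurableSet_Ioi)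
    (hh_isBigO_top hα β n hu) (hh_isBigO_zero hα hβ n hu) hs

theorem differentiableAt_mellin_hh {α : ℝ} (hα : 0 < α) {β : ℕ → ℂ}
    (hβ : ∀ n : ℕ, (fun z : ℂ => gg α z - ∑ j ∈ Finset.range n, β j * z ^ j) =O[𝓝 0]
      fun z => ‖z‖ ^ n) (n : ℕ) {u : ℂ} (hu : 0 < u.re) {s : ℂ} (hs : 2 - (n : ℝ) < s.re) :
    DifferentiableAt ℂ (mellin (fun t : ℝ => hh α β n (u * t))) s :=
  mellin_differentiableAt_of_isBigO_rpow_exp (a := u.re / 2) (by positivity)
    ((continuousOn_hh_comp hα β n hu).locallyIntegrableOn measurableSet_Ioi)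
    (hh_isBigO_top hα β n hu) (hh_isBigO_zero hα hβ n hu) hs

end Pool.Agent.H27
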