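import Mathlib
import Pool.Agent.H27.A3

set_option autoImplicit false

namespace Pool.Agent.H27

open Complex Set MeasureTheory Filter Topology Asymptotics

/-- The Dirichlet series. -/
noncomputable def ZZ (α : ℝ) (s : ℂ) : ℂ := ∑' m : Fin 2 → ℕ, (pp α m : ℂ) ^ (-s)

theorem term_integrand {u : ℂ} (hu : 0 < u.re) (j : ℕ) (s : ℂ) {t : ℝ} (ht : 0 < t) :
    (t : ℂ) ^ (s - 1) • (cexp (-(u * t)) * ((u * t) ^ j / (u * t) ^ 2)) =
      (u ^ j / u ^ 2) * ((t : ℂ) ^ ((s + j - 2) - 1) * cexp (-(u * t))) := by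
  have ht' : (t : ℂ) ≠ 0 := ofReal_ne_zero.mpr ht.ne'
  have e1 : (t : ℂ) ^ ((s + j - 2) - 1) = (t : ℂ) ^ (s - 1) * ((t : ℂ) ^ j / (t : ℂ) ^ 2) := by
    rw [show (s + j - 2) - 1 = (s - 1) + ((j : ℂ) - 2) by ring, cpow_add _ _ ht',
      cpow_sub (j : ℂ) 2 ht', cpow_natCast, cpow_ofNat]
  rw [e1, smul_eq_mul, mul_pow, mul_pow]
  ring

theorem mellinConvergent_term {u : ℂ} (hu : 0 < u.re) (j : ℕ) {s : ℂ} (hs : 2 - (j : ℝ) < s.re) :
    MellinConvergent (fun t : ℝ => cexp (-(u * t)) * ((u * t) ^ j / (u * t) ^ 2)) s := by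
  have hs' : 0 < (s + j - 2).re := by
    rw [sub_re, add_re, natCast_re, re_ofNat]; linarith
  have h := (integrableOn_cpow_exp hs' hu).const_mul (u ^ j / u ^ 2)
  unfold MellinConvergent
  refine IntegrableOn.congr_fun h (fun t ht => ?_) measurableSet_Ioi
  exact (term_integrand hu j s ht).symm

theorem mellin_term {u : ℂ} (hu : 0 < u.re) (j : ℕ) {s : ℂ} (hs : 2 - (j : ℝ) < s.re) :
    mellin (fun t : ℝ => cexp (-(u * t)) * ((u * t) ^ j / (u * t) ^ 2)) s =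
      u ^ (-s) * Gamma (s + j - 2) := by
  have hu0 : u ≠ 0 := by rintro rfl; simp at hu
  have hs' : 0 < (s + j - 2).re := by
    rw [sub_re, add_re, natCast_re, re_ofNat]; linarith
  unfold mellin
  rw [setIntegral_congr_fun measurableSet_Ioi
    (fun t (ht : (0 : ℝ) < t) => term_integrand hu j s ht), integral_const_mul, laplace_eq hs' hu]
  have e1 : u ^ (-(s + j - 2)) = u ^ (-s) * (u ^ 2 / u ^ j) := by
    rw [show -(s + j - 2) = -s + (2 - (j : ℂ)) by ring, cpow_add _ _ hu0,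
      cpow_sub 2 (j : ℂ) hu0, cpow_natCast, cpow_ofNat]
  rw [e1]
  have h2 : u ^ 2 ≠ 0 := pow_ne_zero _ hu0
  have hj : u ^ j ≠ 0 := pow_ne_zero _ hu0
  field_simp

theorem hh_zero (α : ℝ) (β : ℕ → ℂ) : hh α β 0 = GG α := by
  funext z; simp [hh]

theorem hh_succ (α : ℝ) (β : ℕ → ℂ) (n : ℕ) (z : ℂ) :
    hh α β (n + 1) z = hh α β n z - β n * (cexp (-z) * (z ^ n / z ^ 2)) := by
  unfold hh; rw [Finset.sum_range_succ]; ring

theorem mellin_hh_succ {α : ℝ} (hα : 0 < α) {β : ℕ → ℂ}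
    (hβ : ∀ n : ℕ, (fun z : ℂ => gg α z - ∑ j ∈ Finset.range n, β j * z ^ j) =O[𝓝 0]
      fun z => ‖z‖ ^ n) (n : ℕ) {u : ℂ} (hu : 0 < u.re) {s : ℂ} (hs : 2 - (n : ℝ) < s.re) :
    mellin (fun t : ℝ => hh α β (n + 1) (u * t)) s =
      mellin (fun t : ℝ => hh α β n (u * t)) s - β n * (u ^ (-s) * Gamma (s + n - 2)) := by
  have h1 := mellinConvergent_hh hα hβ n hu hs
  have h2 := (mellinConvergent_term hu n hs).const_smul (β n)
  have h3 := hasMellin_sub h1 h2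
  have h4 : (fun t : ℝ => hh α β (n + 1) (u * t)) = (fun t : ℝ => hh α β n (u * t) -
      β n • (cexp (-(u * t)) * ((u * t) ^ n / (u * t) ^ 2))) := by
    funext t; rw [hh_succ, smul_eq_mul]
  rw [h4, h3.2, mellin_const_smul, mellin_term hu n hs, smul_eq_mul]

theorem mellin_hh {α : ℝ} (hα : 0 < α) {β : ℕ → ℂ}
    (hβ : ∀ n : ℕ, (fun z : ℂ => gg α z - ∑ j ∈ Finset.range n, β j * z ^ j) =O[𝓝 0]
      fun z => ‖z‖ ^ n) (n : ℕ) {u : ℂ} (hu : 0 < u.re) {s : ℂ} (hs : 2 < s.re) :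
    mellin (fun t : ℝ => hh α β n (u * t)) s =
      u ^ (-s) * (Gamma s * ZZ α s - ∑ j ∈ Finset.range n, β j * Gamma (s + j - 2)) := by
  induction n with
  | zero =>
    rw [hh_zero, mellin_GG hα hu hs]
    simp [ZZ, mul_assoc]
  | succ n ih =>
    have hn : 2 - (n : ℝ) < s.re := by
      have : (0 : ℝ) ≤ n := n.cast_nonneg
      linarith
    rw [mellin_hh_succ hα hβ n hu hn, ih, Finset.sum_range_succ]
    ring

/-- Rotation of the ray of integration. -/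
theorem mellin_hh_rot {α : ℝ} (hα : 0 < α) {β : ℕ → ℂ}
    (hβ : ∀ n : ℕ, (fun z : ℂ => gg α z - ∑ j ∈ Finset.range n, β j * z ^ j) =O[𝓝 0]
      fun z => ‖z‖ ^ n) (n : ℕ) {u : ℂ} (hu : 0 < u.re) {s : ℂ} (hs : 2 - (n : ℝ) < s.re) :
    mellin (fun t : ℝ => hh α β n (u * t)) s =
      u ^ (-s) * mellin (fun t : ℝ => hh α β n (t : ℂ)) s := by
  have hu0 : u ≠ 0 := by rintro rfl; simp at hu
  have hone : (0 : ℝ) < (1 : ℂ).re := by simp
  set U : Set ℂ := {s : ℂ | 2 - (n : ℝ) < s.re} with hU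
  have hUo : IsOpen U := isOpen_lt continuous_const continuous_re
  have hA : AnalyticOnNhd ℂ (mellin (fun t : ℝ => hh α β n (u * t))) U := by
    refine DifferentiableOn.analyticOnNhd (fun z hz => ?_) hUo
    exact (differentiableAt_mellin_hh hα hβ n hu hz).differentiableWithinAt
  have hB : AnalyticOnNhd ℂ (fun s => u ^ (-s) * mellin (fun t : ℝ => hh α β n (t : ℂ)) s) U := by
    refine DifferentiableOn.analyticOnNhd (fun z hz => ?_) hUo
    have h1 := differentiableAt_mellin_hh hα hβ n hone hz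
    simp only [one_mul] at h1
    refine DifferentiableAt.differentiableWithinAt ?_
    refine DifferentiableAt.mul ?_ h1
    exact DifferentiableAt.const_cpow (by fun_prop) (Or.inl hu0)
  have hpre : IsPreconnected U := (convex_rhp _).isPreconnected
  have h3 : (3 : ℂ) ∈ U := by
    change 2 - (n : ℝ) < (3 : ℂ).re
    have : (0 : ℝ) ≤ n := n.cast_nonneg
    rw [re_ofNat]; linarith
  have hev : (mellin (fun t : ℝ => hh α β n (u * t))) =ᶠ[𝓝 (3 : ℂ)]
      (fun s => u ^ (-s) * mellin (fun t : ℝ => hh α β n (t : ℂ)) s) := by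
    have hmem : {s : ℂ | 2 < s.re} ∈ 𝓝 (3 : ℂ) := by
      refine (isOpen_lt continuous_const continuous_re).mem_nhds ?_
      change (2 : ℝ) < (3 : ℂ).re
      rw [re_ofNat]; norm_num
    filter_upwards [hmem] with z hz
    rw [mellin_hh hα hβ n hu hz]
    have := mellin_hh hα hβ n hone hz
    simp only [one_mul, one_cpow] at this
    rw [this]
  exact hA.eqOn_of_preconnected_of_eventuallyEq hB hpre h3 hev hs

/-- The ratios Gamma (s + j - 2) / Gamma s. -/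
noncomputable def rho : ℕ → ℂ → ℂ
  | 0, s => ((s - 1) * (s - 2))⁻¹
  | 1, s => (s - 1)⁻¹
  | (j + 2), s => (ascPochhammer ℂ j).eval s

theorem inv_Gamma_eq (j : ℕ) (s : ℂ) :
    (Gamma s)⁻¹ = (ascPochhammer ℂ j).eval s * (Gamma (s + j))⁻¹ := by
  induction j with
  | zero => simp
  | succ j ih =>
    rw [ih, one_div_Gamma_eq_self_mul_one_div_Gamma_add_one (s + j), ascPochhammer_succ_eval]
    push_cast
    rw [← add_assoc]
    ring

theorem rho_eq (j : ℕ) {s : ℂ} (hs : 2 - (j : ℝ) < s.re) :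
    (Gamma s)⁻¹ * Gamma (s + j - 2) = rho j s := by
  have hpos : 0 < (s + j - 2).re := by
    rw [sub_re, add_re, natCast_re, re_ofNat]; linarith
  have hG : Gamma (s + j - 2) ≠ 0 := Gamma_ne_zero_of_re_pos hpos
  match j, hs, hpos, hG with
  | 0, hs, hpos, hG =>
    simp only [Nat.cast_zero, add_zero] at hG hpos ⊢
    unfold rho
    have h := inv_Gamma_eq 2 (s - 2)
    have e : s - 2 + ((2 : ℕ) : ℂ) = s := by push_cast; ring
    rw [e] at h
    have e2 : (ascPochhammer ℂ 2).eval (s - 2) = (s - 1) * (s - 2) := by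
      rw [ascPochhammer_succ_eval, ascPochhammer_one]
      simp
      ring
    rw [e2] at h
    have hne : (s - 1) * (s - 2) ≠ 0 := by
      intro h0
      rw [h0, zero_mul] at h
      exact inv_ne_zero hG h
    have h3 : (s - 1) * (s - 2) * ((Gamma s)⁻¹ * Gamma (s - 2)) = 1 := by
      rw [← mul_assoc, ← h, inv_mul_cancel₀ hG]
    exact eq_inv_of_mul_eq_one_right h3
  | 1, hs, hpos, hG =>
    have e0 : s + ((1 : ℕ) : ℂ) - 2 = s - 1 := by push_cast; ring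
    rw [e0] at hG ⊢
    unfold rho
    have h := inv_Gamma_eq 1 (s - 1)
    have e : s - 1 + ((1 : ℕ) : ℂ) = s := by push_cast; ring
    rw [e] at h
    have e2 : (ascPochhammer ℂ 1).eval (s - 1) = s - 1 := by
      rw [ascPochhammer_one]
      simp
    rw [e2] at h
    have h3 : (s - 1) * ((Gamma s)⁻¹ * Gamma (s - 1)) = 1 := by
      rw [← mul_assoc, ← h, inv_mul_cancel₀ hG]
    exact eq_inv_of_mul_eq_one_right h3
  | (j + 2), hs, hpos, hG =>
    have e0 : s + ((j + 2 : ℕ) : ℂ) - 2 = s + j := by push_cast; ring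
    rw [e0] at hG ⊢
    unfold rho
    rw [inv_Gamma_eq j s, mul_assoc, inv_mul_cancel₀ hG, mul_one]

theorem differentiableAt_rho (j : ℕ) {s : ℂ} (h1 : s ≠ 1) (h2 : s ≠ 2) :
    DifferentiableAt ℂ (rho j) s := by
  have h1' : s - 1 ≠ 0 := sub_ne_zero.mpr h1
  have h2' : s - 2 ≠ 0 := sub_ne_zero.mpr h2
  match j with
  | 0 =>
    unfold rho
    exact DifferentiableAt.fun_inv (by fun_prop) (mul_ne_zero h1' h2')
  | 1 =>
    unfold rho
    exact DifferentiableAt.fun_inv (by fun_prop) h1'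
  | (j + 2) =>
    unfold rho
    exact Polynomial.differentiableAt _

/-- The continuation to the half plane 2 - n < re s. -/
noncomputable def Fn (α : ℝ) (β : ℕ → ℂ) (n : ℕ) (s : ℂ) : ℂ :=
  (Gamma s)⁻¹ * mellin (fun t : ℝ => hh α β n (t : ℂ)) s + ∑ j ∈ Finset.range n, β j * rho j s

/-- The continuation. -/
noncomputable def FF (α : ℝ) (β : ℕ → ℂ) (s : ℂ) : ℂ := Fn α β (⌈|s.re|⌉₊ + 3) s

theorem Fn_succ {α : ℝ} (hα : 0 < α) {β : ℕ → ℂ}
    (hβ : ∀ n : ℕ, (fun z : ℂ => gg α z - ∑ j ∈ Finset.range n, β j * z ^ j) =O[𝓝 0]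
      fun z => ‖z‖ ^ n) (n : ℕ) {s : ℂ} (hs : 2 - (n : ℝ) < s.re) :
    Fn α β (n + 1) s = Fn α β n s := by
  have hone : (0 : ℝ) < (1 : ℂ).re := by simp
  have h := mellin_hh_succ hα hβ n hone hs
  simp only [one_mul, one_cpow] at h
  unfold Fn
  rw [h, Finset.sum_range_succ, ← rho_eq n hs]
  ring

theorem Fn_eq {α : ℝ} (hα : 0 < α) {β : ℕ → ℂ}
    (hβ : ∀ n : ℕ, (fun z : ℂ => gg α z - ∑ j ∈ Finset.range n, β j * z ^ j) =O[𝓝 0]
      fun z => ‖z‖ ^ n) {n m : ℕ} (hnm : n ≤ m) {s : ℂ} (hs : 2 - (n : ℝ) < s.re) :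
    Fn α β m s = Fn α β n s := by
  induction m, hnm using Nat.le_induction with
  | base => rfl
  | succ m hm ih =>
    rw [Fn_succ hα hβ m, ih]
    have : (n : ℝ) ≤ m := by exact_mod_cast hm
    linarith

theorem FF_eq {α : ℝ} (hα : 0 < α) {β : ℕ → ℂ}
    (hβ : ∀ n : ℕ, (fun z : ℂ => gg α z - ∑ j ∈ Finset.range n, β j * z ^ j) =O[𝓝 0]
      fun z => ‖z‖ ^ n) (n : ℕ) {s : ℂ} (hs : 2 - (n : ℝ) < s.re) :
    FF α β s = Fn α β n s := by
  unfold FF
  set N := ⌈|s.re|⌉₊ + 3 with hN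
  have hN' : 2 - (N : ℝ) < s.re := by
    have h1 : |s.re| ≤ (⌈|s.re|⌉₊ : ℝ) := Nat.le_ceil _
    have h2 : -|s.re| ≤ s.re := neg_abs_le _
    rw [hN]; push_cast; linarith
  rcases le_total n N with h | h
  · exact Fn_eq hα hβ h hs
  · exact (Fn_eq hα hβ h hN').symm

theorem differentiableAt_Fn {α : ℝ} (hα : 0 < α) {β : ℕ → ℂ}
    (hβ : ∀ n : ℕ, (fun z : ℂ => gg α z - ∑ j ∈ Finset.range n, β j * z ^ j) =O[𝓝 0]
      fun z => ‖z‖ ^ n) (n : ℕ) {s : ℂ} (hs : 2 - (n : ℝ) < s.re) (h1 : s ≠ 1) (h2 : s ≠ 2) :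
    DifferentiableAt ℂ (Fn α β n) s := by
  have hone : (0 : ℝ) < (1 : ℂ).re := by simp
  have h := differentiableAt_mellin_hh hα hβ n hone hs
  simp only [one_mul] at h
  unfold Fn
  refine DifferentiableAt.fun_add ((differentiable_one_div_Gamma s).fun_mul h) ?_
  refine DifferentiableAt.fun_sum (fun j _ => ?_)
  exact (differentiableAt_rho j h1 h2).const_mul _

theorem differentiableAt_FF {α : ℝ} (hα : 0 < α) {β : ℕ → ℂ}
    (hβ : ∀ n : ℕ, (fun z : ℂ => gg α z - ∑ j ∈ Finset.range n, β j * z ^ j) =O[𝓝 0]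
      fun z => ‖z‖ ^ n) {s : ℂ} (h1 : s ≠ 1) (h2 : s ≠ 2) :
    DifferentiableAt ℂ (FF α β) s := by
  obtain ⟨n, hn⟩ := exists_nat_gt (2 - s.re)
  have hn' : 2 - (n : ℝ) < s.re := by linarith
  refine (differentiableAt_Fn hα hβ n hn' h1 h2).congr_of_eventuallyEq ?_
  have hmem : {z : ℂ | 2 - (n : ℝ) < z.re} ∈ 𝓝 s :=
    (isOpen_lt continuous_const continuous_re).mem_nhds hn'
  filter_upwards [hmem] with z hz
  exact FF_eq hα hβ n hz

theorem FF_eq_ZZ {α : ℝ} (hα : 0 < α) {β : ℕ → ℂ}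
    (hβ : ∀ n : ℕ, (fun z : ℂ => gg α z - ∑ j ∈ Finset.range n, β j * z ^ j) =O[𝓝 0]
      fun z => ‖z‖ ^ n) {s : ℂ} (hs : 2 < s.re) : FF α β s = ZZ α s := by
  have hone : (0 : ℝ) < (1 : ℂ).re := by simp
  rw [FF_eq hα hβ 0 (by simpa using hs)]
  unfold Fn
  have h := mellin_hh hα hβ 0 hone hs
  simp only [one_mul, one_cpow] at h
  rw [h]
  have hG : Gamma s ≠ 0 := Gamma_ne_zero_of_re_pos (by linarith)
  simp
  field_simp

/-- On the line re s = 1 the Mellin transform of hh α β 2 is given by FF. -/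
theorem mellin_hh_two {α : ℝ} (hα : 0 < α) {β : ℕ → ℂ}
    (hβ : ∀ n : ℕ, (fun z : ℂ => gg α z - ∑ j ∈ Finset.range n, β j * z ^ j) =O[𝓝 0]
      fun z => ‖z‖ ^ n) {s : ℂ} (hs : 0 < s.re) :
    mellin (fun t : ℝ => hh α β 2 (t : ℂ)) s =
      Gamma s * (FF α β s - β 0 * ((s - 1) * (s - 2))⁻¹ - β 1 * (s - 1)⁻¹) := by
  have hG : Gamma s ≠ 0 := Gamma_ne_zero_of_re_pos hs
  rw [FF_eq hα hβ 2 (by push_cast; linarith)]
  unfold Fn
  rw [Finset.sum_range_succ, Finset.sum_range_succ, Finset.sum_range_zero]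
  unfold rho
  have : (Gamma s)⁻¹ * mellin (fun t : ℝ => hh α β 2 (t : ℂ)) s +
      (0 + β 0 * ((s - 1) * (s - 2))⁻¹ + β 1 * (s - 1)⁻¹) - β 0 * ((s - 1) * (s - 2))⁻¹ -
      β 1 * (s - 1)⁻¹ = (Gamma s)⁻¹ * mellin (fun t : ℝ => hh α β 2 (t : ℂ)) s := by ring
  rw [this, ← mul_assoc, mul_inv_cancel₀ hG, one_mul]

end Pool.Agent.H27
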