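import Mathlib
import Pool.Agent.H27.A4

set_option autoImplicit false

namespace Pool.Agent.H27

open Complex Set MeasureTheory Filter Topology Asymptotics

theorem Gamma_sq {t : ℝ} (ht : 0 < t) :
    ‖Gamma (1 + t * I)‖ ^ 2 = Real.pi * t / Real.sinh (Real.pi * t) := by
  have htI : (t : ℂ) * I ≠ 0 := mul_ne_zero (ofReal_ne_zero.mpr ht.ne') I_ne_zero
  have h1 := Gamma_mul_Gamma_one_sub (t * I)
  have h2 : Gamma (1 + t * I) = (t * I) * Gamma (t * I) := by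
    rw [add_comm, Gamma_add_one _ htI]
  have h3 : Gamma (1 - t * I) = (starRingEnd ℂ) (Gamma (1 + t * I)) := by
    rw [← Gamma_conj]
    congr 1
    simp [sub_eq_add_neg]
  have h4 : sin (Real.pi * (t * I)) = Real.sinh (Real.pi * t) * I := by
    rw [← mul_assoc, ← ofReal_mul, sin_mul_I, ofReal_sinh]
  have hsinh : 0 < Real.sinh (Real.pi * t) := Real.sinh_pos_iff.mpr (by positivity)
  have h5 : Gamma (1 + t * I) * (starRingEnd ℂ) (Gamma (1 + t * I))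
      = ((Real.pi * t / Real.sinh (Real.pi * t) : ℝ) : ℂ) := by
    rw [← h3, h2, mul_assoc, h1, h4]
    have hs' : (Real.sinh (Real.pi * t) : ℂ) ≠ 0 := ofReal_ne_zero.mpr hsinh.ne'
    have hI : I ≠ 0 := I_ne_zero
    push_cast
    push_cast at hs'
    field_simp
  rw [mul_conj, ofReal_inj] at h5
  rw [← h5, normSq_eq_norm_sq]

theorem Gamma_bound {t : ℝ} (ht : 1 ≤ t) :
    ‖Gamma (1 + t * I)‖ ≤ 4 * t ^ (1 / 2 : ℝ) * Real.exp (-(Real.pi / 2 * t)) := by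
  have ht0 : 0 < t := by linarith
  have h := Gamma_sq ht0
  have hpi : Real.pi < 4 := Real.pi_lt_four
  have hpi3 : 3 < Real.pi := Real.pi_gt_three
  have hE : 0 < Real.exp (Real.pi * t) := Real.exp_pos _
  have hsinh : Real.exp (Real.pi * t) / 4 ≤ Real.sinh (Real.pi * t) := by
    rw [Real.sinh_eq]
    have h1 : Real.exp (-(Real.pi * t)) ≤ 1 := by
      rw [Real.exp_le_one_iff]; nlinarith
    have h2 : 2 ≤ Real.exp (Real.pi * t) := by
      have := Real.add_one_le_exp (Real.pi * t)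
      nlinarith
    linarith
  have h2 : ‖Gamma (1 + t * I)‖ ^ 2 ≤ (4 * t ^ (1 / 2 : ℝ) * Real.exp (-(Real.pi / 2 * t))) ^ 2 := by
    rw [h]
    have e1 : (4 * t ^ (1 / 2 : ℝ) * Real.exp (-(Real.pi / 2 * t))) ^ 2
        = 16 * t / Real.exp (Real.pi * t) := by
      have e2 : (t ^ (1 / 2 : ℝ)) ^ 2 = t := by
        rw [← Real.rpow_natCast, ← Real.rpow_mul ht0.le]; norm_num
      have e3 : (Real.exp (-(Real.pi / 2 * t))) ^ 2 = (Real.exp (Real.pi * t))⁻¹ := by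
        rw [← Real.exp_nat_mul, ← Real.exp_neg]; congr 1; push_cast; ring
      rw [mul_pow, mul_pow, e2, e3]; ring
    rw [e1]
    calc Real.pi * t / Real.sinh (Real.pi * t) ≤ (4 * t) / (Real.exp (Real.pi * t) / 4) := by
          gcongr
      _ = 16 * t / Real.exp (Real.pi * t) := by field_simp; ring
  exact le_of_sq_le_sq h2 (by positivity)

/-- Trivial bound for the Mellin transform on the line re s = 1. -/
theorem mellin_trivial_bound (f : ℝ → ℂ) (t : ℝ) :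
    ‖mellin f (1 + t * I)‖ ≤ ∫ x : ℝ in Ioi 0, ‖f x‖ := by
  unfold mellin
  refine (norm_integral_le_integral_norm _).trans (le_of_eq ?_)
  refine setIntegral_congr_fun measurableSet_Ioi (fun x hx => ?_)
  have hx0 : (0 : ℝ) < x := hx
  rw [norm_smul, norm_cpow_eq_rpow_re_of_pos hx0]
  simp


/-- The bound for the non-rotated transform for t at least 1. -/
theorem mellin_hh_bound {α : ℝ} (hα : 0 < α) {β : ℕ → ℂ}
    (hβ : ∀ n : ℕ, (fun z : ℂ => gg α z - ∑ j ∈ Finset.range n, β j * z ^ j) =O[𝓝 0]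
      fun z => ‖z‖ ^ n) {C : ℝ}
    (hC : ∀ t : ℝ, 1 ≤ t → ‖FF α β (1 + t * I)‖ ≤ C * t ^ (1 / 4 : ℝ)) {t : ℝ} (ht : 1 ≤ t) :
    ‖mellin (fun t : ℝ => hh α β 2 (t : ℂ)) (1 + t * I)‖ ≤
      4 * (C + ‖β 0‖ + ‖β 1‖) * t ^ (3 / 4 : ℝ) * Real.exp (-(Real.pi / 2 * t)) := by
  have ht0 : 0 < t := by linarith
  have hs : 0 < (1 + t * I : ℂ).re := by simp
  rw [mellin_hh_two hα hβ hs, norm_mul]
  have h1 := Gamma_bound ht
  have h2 := hC t ht
  have e1 : (1 + t * I : ℂ) - 1 = t * I := by ring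
  have n1 : 1 ≤ ‖(1 + t * I : ℂ) - 1‖ := by
    rw [e1, norm_mul, norm_I, mul_one, Complex.norm_real, Real.norm_eq_abs, abs_of_pos ht0]
    exact ht
  have n2 : 1 ≤ ‖(1 + t * I : ℂ) - 2‖ := by
    have := abs_im_le_norm ((1 + t * I : ℂ) - 2)
    simp at this
    rw [abs_of_pos ht0] at this
    linarith
  have hq : (1 : ℝ) ≤ t ^ (1 / 4 : ℝ) := Real.one_le_rpow ht (by norm_num)
  have b1 : ‖β 1 * ((1 + t * I : ℂ) - 1)⁻¹‖ ≤ ‖β 1‖ * t ^ (1 / 4 : ℝ) := by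
    rw [norm_mul, norm_inv]
    gcongr
    exact (inv_le_one_of_one_le₀ n1).trans hq
  have b0 : ‖β 0 * (((1 + t * I : ℂ) - 1) * ((1 + t * I : ℂ) - 2))⁻¹‖ ≤ ‖β 0‖ * t ^ (1 / 4 : ℝ) := by
    rw [norm_mul, norm_inv, norm_mul]
    gcongr
    refine (inv_le_one_of_one_le₀ ?_).trans hq
    nlinarith
  have h3 : ‖FF α β (1 + t * I) - β 0 * (((1 + t * I : ℂ) - 1) * ((1 + t * I : ℂ) - 2))⁻¹ -
      β 1 * ((1 + t * I : ℂ) - 1)⁻¹‖ ≤ (C + ‖β 0‖ + ‖β 1‖) * t ^ (1 / 4 : ℝ) := by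
    refine (norm_sub_le _ _).trans ?_
    have := norm_sub_le (FF α β (1 + t * I)) (β 0 * (((1 + t * I : ℂ) - 1) * ((1 + t * I : ℂ) - 2))⁻¹)
    linarith
  have hsplit : t ^ (3 / 4 : ℝ) = t ^ (1 / 2 : ℝ) * t ^ (1 / 4 : ℝ) := by
    rw [← Real.rpow_add ht0]; norm_num
  calc ‖Gamma (1 + t * I)‖ * _ ≤ (4 * t ^ (1 / 2 : ℝ) * Real.exp (-(Real.pi / 2 * t))) *
        ((C + ‖β 0‖ + ‖β 1‖) * t ^ (1 / 4 : ℝ)) := by gcongr
    _ = _ := by rw [hsplit]; ring

theorem norm_cpow_rot {θ : ℝ} (h0 : 0 < θ) (h1 : θ < Real.pi) (t : ℝ) :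
    ‖(cexp (θ * I)) ^ (-(1 + t * I : ℂ))‖ = Real.exp (θ * t) := by
  rw [cpow_def_of_ne_zero (Complex.exp_ne_zero _), Complex.log_exp (by simp; linarith) (by simpa using h1.le),
    Complex.norm_exp]
  congr 1
  simp

/-- The integral of the rotated Mellin transform on the line re s = 1. -/
theorem integral_bound {α : ℝ} (hα : 0 < α) {β : ℕ → ℂ}
    (hβ : ∀ n : ℕ, (fun z : ℂ => gg α z - ∑ j ∈ Finset.range n, β j * z ^ j) =O[𝓝 0]
      fun z => ‖z‖ ^ n) {C : ℝ}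
    (hC : ∀ t : ℝ, 1 ≤ t → ‖FF α β (1 + t * I)‖ ≤ C * t ^ (1 / 4 : ℝ)) :
    ∃ A : ℝ, 0 < A ∧ ∀ θ : ℝ, 1 ≤ θ → θ < Real.pi / 2 →
      Integrable (fun y : ℝ => mellin (fun t : ℝ => hh α β 2 (cexp (θ * I) * t)) (1 + y * I)) ∧
      ∫ y : ℝ, ‖mellin (fun t : ℝ => hh α β 2 (cexp (θ * I) * t)) (1 + y * I)‖ ≤
        A * (1 + (1 / (Real.pi / 2 - θ)) ^ (7 / 4 : ℝ)) := by
  set B : ℝ := ∫ x : ℝ in Ioi 0, ‖hh α β 2 (x : ℂ)‖ with hB
  have hB0 : 0 ≤ B := integral_nonneg (fun _ => norm_nonneg _)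
  have hC0 : 0 ≤ C := by
    have := (norm_nonneg _).trans (hC 1 le_rfl)
    simpa using this
  set K : ℝ := 4 * (C + ‖β 0‖ + ‖β 1‖) with hK
  have hK0 : 0 ≤ K := by positivity
  have hG : 0 < Real.Gamma (7 / 4) := Real.Gamma_pos_of_pos (by norm_num)
  refine ⟨B * Real.exp 2 + K * Real.Gamma (7 / 4) + 1, by positivity, fun θ hθ1 hθ2 => ?_⟩
  have hpi := Real.pi_pos
  have hpi4 := Real.pi_lt_four
  set δ : ℝ := Real.pi / 2 - θ with hδ
  have hδ0 : 0 < δ := by linarith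
  have hu : 0 < (cexp (θ * I)).re := by
    rw [Complex.exp_ofReal_mul_I_re]
    exact Real.cos_pos_of_mem_Ioo ⟨by linarith, by linarith⟩
  set M : ℝ → ℂ := fun y : ℝ => mellin (fun t : ℝ => hh α β 2 (cexp (θ * I) * t)) (1 + y * I) with hM
  have hcont : Continuous M := by
    rw [continuous_iff_continuousAt]
    intro y
    have hd := differentiableAt_mellin_hh hα hβ 2 hu (s := (1 + y * I : ℂ)) (by simp)
    exact ContinuousAt.comp (f := fun y : ℝ => (1 + y * I : ℂ)) hd.continuousAt (by fun_prop)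
  have hMeq : ∀ y : ℝ, ‖M y‖ = Real.exp (θ * y) *
      ‖mellin (fun t : ℝ => hh α β 2 (t : ℂ)) (1 + y * I)‖ := by
    intro y
    simp only [hM]
    rw [mellin_hh_rot hα hβ 2 hu (by simp), norm_mul, norm_cpow_rot (by linarith) (by linarith)]
  have hM1 : ∀ y : ℝ, y ≤ 1 → ‖M y‖ ≤ (B * Real.exp 1) * Real.exp y := by
    intro y hy
    rw [hMeq]
    have h1 := mellin_trivial_bound (fun t : ℝ => hh α β 2 (t : ℂ)) y
    have h2 : Real.exp (θ * y) ≤ Real.exp (1 + y) := by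
      apply Real.exp_le_exp.mpr
      rcases le_total 0 y with h | h
      · nlinarith
      · nlinarith
    rw [Real.exp_add] at h2
    calc Real.exp (θ * y) * ‖mellin (fun t : ℝ => hh α β 2 (t : ℂ)) (1 + y * I)‖
        ≤ (Real.exp 1 * Real.exp y) * B := by gcongr
      _ = _ := by ring
  have hM2 : ∀ y : ℝ, 1 ≤ y → ‖M y‖ ≤ K * (y ^ ((7 / 4 : ℝ) - 1) * Real.exp (-(δ * y))) := by
    intro y hy
    rw [hMeq]
    have h1 := mellin_hh_bound hα hβ hC hy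
    have h3 : Real.exp (-(δ * y)) = Real.exp (θ * y) * Real.exp (-(Real.pi / 2 * y)) := by
      rw [← Real.exp_add, hδ]; congr 1; ring
    calc Real.exp (θ * y) * ‖mellin (fun t : ℝ => hh α β 2 (t : ℂ)) (1 + y * I)‖
        ≤ Real.exp (θ * y) * (K * y ^ (3 / 4 : ℝ) * Real.exp (-(Real.pi / 2 * y))) := by gcongr
      _ = _ := by rw [h3]; norm_num; ring
  have hI1 : IntegrableOn M (Iic 1) := by
    refine Integrable.mono' ((integrableOn_exp_Iic 1).const_mul (B * Real.exp 1))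
      hcont.aestronglyMeasurable ?_
    exact (ae_restrict_mem measurableSet_Iic).mono fun y hy => hM1 y hy
  have hI2' : IntegrableOn (fun y : ℝ => K * (y ^ ((7 / 4 : ℝ) - 1) * Real.exp (-(δ * y)))) (Ioi 0) :=
    (integrableOn_rpow_exp (by norm_num) hδ0).const_mul K
  have hI2 : IntegrableOn M (Ioi 1) := by
    refine Integrable.mono' (hI2'.mono_set (Ioi_subset_Ioi zero_le_one))
      hcont.aestronglyMeasurable ?_
    exact (ae_restrict_mem measurableSet_Ioi).mono fun y hy => hM2 y (le_of_lt hy)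
  have hint : Integrable M := by
    rw [← integrableOn_univ, ← Iic_union_Ioi (a := (1 : ℝ))]
    exact hI1.union hI2
  refine ⟨hint, ?_⟩
  have hsplit : ∫ y : ℝ, ‖M y‖ = (∫ y in Iic (1 : ℝ), ‖M y‖) + ∫ y in Ioi (1 : ℝ), ‖M y‖ := by
    rw [← intervalIntegral.integral_Iic_add_Ioi hI1.norm hI2.norm]
  have hb1 : ∫ y in Iic (1 : ℝ), ‖M y‖ ≤ B * Real.exp 2 := by
    have h1 : ∫ y in Iic (1 : ℝ), ‖M y‖ ≤ ∫ y in Iic (1 : ℝ), (B * Real.exp 1) * Real.exp y := by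
      refine setIntegral_mono_on hI1.norm ((integrableOn_exp_Iic 1).const_mul _)
        measurableSet_Iic (fun y hy => hM1 y hy)
    rw [integral_const_mul, integral_exp_Iic] at h1
    have h2 : Real.exp 2 = Real.exp 1 * Real.exp 1 := by rw [← Real.exp_add]; norm_num
    rw [h2]; linarith
  have hb2 : ∫ y in Ioi (1 : ℝ), ‖M y‖ ≤ K * ((1 / δ) ^ (7 / 4 : ℝ) * Real.Gamma (7 / 4)) := by
    have h1 : ∫ y in Ioi (1 : ℝ), ‖M y‖ ≤
        ∫ y in Ioi (1 : ℝ), K * (y ^ ((7 / 4 : ℝ) - 1) * Real.exp (-(δ * y))) := by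
      refine setIntegral_mono_on hI2.norm (hI2'.mono_set (Ioi_subset_Ioi zero_le_one))
        measurableSet_Ioi (fun y hy => hM2 y (le_of_lt hy))
    have h2 : ∫ y in Ioi (1 : ℝ), K * (y ^ ((7 / 4 : ℝ) - 1) * Real.exp (-(δ * y))) ≤
        ∫ y in Ioi (0 : ℝ), K * (y ^ ((7 / 4 : ℝ) - 1) * Real.exp (-(δ * y))) := by
      refine setIntegral_mono_set hI2' ?_ (Ioi_subset_Ioi zero_le_one).eventuallyLE
      refine (ae_restrict_mem measurableSet_Ioi).mono fun y hy => ?_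
      have : (0 : ℝ) < y := hy
      simp only [Pi.zero_apply]
      positivity
    rw [integral_const_mul, integral_const_mul,
      Real.integral_rpow_mul_exp_neg_mul_Ioi (by norm_num) hδ0] at h2
    rw [integral_const_mul] at h1
    linarith
  rw [hsplit]
  have hp : 0 ≤ (1 / δ) ^ (7 / 4 : ℝ) := by positivity
  have hx : 0 ≤ B * Real.exp 2 := by positivity
  have hy : 0 ≤ K * Real.Gamma (7 / 4) := by positivity
  calc (∫ y in Iic (1 : ℝ), ‖M y‖) + ∫ y in Ioi (1 : ℝ), ‖M y‖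
      ≤ B * Real.exp 2 + K * ((1 / δ) ^ (7 / 4 : ℝ) * Real.Gamma (7 / 4)) := add_le_add hb1 hb2
    _ ≤ (B * Real.exp 2 + K * Real.Gamma (7 / 4) + 1) * (1 + (1 / δ) ^ (7 / 4 : ℝ)) := by
        nlinarith [mul_nonneg hx hp, mul_nonneg hy hp]

end Pool.Agent.H27
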