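import Mathlib
import Pool.Agent.H27.A5

set_option autoImplicit false

namespace Pool.Agent.H27

open Complex Set MeasureTheory Filter Topology Asymptotics

/-- Upper bound for hh α β 2 near the imaginary axis, from Mellin inversion. -/
theorem upper_bound {α : ℝ} (hα : 0 < α) {β : ℕ → ℂ}
    (hβ : ∀ n : ℕ, (fun z : ℂ => gg α z - ∑ j ∈ Finset.range n, β j * z ^ j) =O[𝓝 0]
      fun z => ‖z‖ ^ n) {C : ℝ}
    (hC : ∀ t : ℝ, 1 ≤ t → ‖FF α β (1 + t * I)‖ ≤ C * t ^ (1 / 4 : ℝ)) :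
    ∃ A : ℝ, 0 < A ∧ ∀ θ x : ℝ, 1 ≤ θ → θ < Real.pi / 2 → 0 < x →
      ‖hh α β 2 (cexp (θ * I) * x)‖ ≤ x⁻¹ * (A * (1 + (1 / (Real.pi / 2 - θ)) ^ (7 / 4 : ℝ))) := by
  obtain ⟨A, hA, h⟩ := integral_bound hα hβ hC
  refine ⟨A, hA, fun θ x hθ1 hθ2 hx => ?_⟩
  obtain ⟨hint, hb⟩ := h θ hθ1 hθ2
  have hpi := Real.pi_gt_three
  have hu : 0 < (cexp (θ * I)).re := by
    rw [Complex.exp_ofReal_mul_I_re]
    exact Real.cos_pos_of_mem_Ioo ⟨by linarith, by linarith⟩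
  have hconv : MellinConvergent (fun t : ℝ => hh α β 2 (cexp (θ * I) * t)) ((1 : ℝ) : ℂ) :=
    mellinConvergent_hh hα hβ 2 hu (by simp)
  have hvert : VerticalIntegrable (mellin (fun t : ℝ => hh α β 2 (cexp (θ * I) * t))) 1 := by
    unfold VerticalIntegrable
    simpa using hint
  have hcont : ContinuousAt (fun t : ℝ => hh α β 2 (cexp (θ * I) * t)) x :=
    (continuousOn_hh_comp hα β 2 hu).continuousAt (Ioi_mem_nhds hx)
  have hinv := mellinInv_mellin_eq 1 _ hx hconv hvert hcont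
  rw [← hinv]
  unfold mellinInv
  rw [norm_smul, Real.norm_eq_abs, abs_of_pos (by positivity)]
  have h1 : ‖∫ y : ℝ, (x : ℂ) ^ (-(((1 : ℝ) : ℂ) + y * I)) •
      mellin (fun t : ℝ => hh α β 2 (cexp (θ * I) * t)) (((1 : ℝ) : ℂ) + y * I)‖ ≤
      x⁻¹ * (A * (1 + (1 / (Real.pi / 2 - θ)) ^ (7 / 4 : ℝ))) := by
    refine (norm_integral_le_integral_norm _).trans ?_
    have e : ∀ y : ℝ, ‖(x : ℂ) ^ (-(((1 : ℝ) : ℂ) + y * I)) •
      mellin (fun t : ℝ => hh α β 2 (cexp (θ * I) * t)) (((1 : ℝ) : ℂ) + y * I)‖ =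
      x⁻¹ * ‖mellin (fun t : ℝ => hh α β 2 (cexp (θ * I) * t)) (1 + y * I)‖ := by
      intro y
      rw [norm_smul, norm_cpow_eq_rpow_re_of_pos hx]
      simp [Real.rpow_neg_one]
    simp_rw [e]
    rw [integral_const_mul]
    gcongr
  have h2 : 1 / (2 * Real.pi) ≤ 1 := by
    rw [div_le_one (by positivity)]; linarith
  calc 1 / (2 * Real.pi) * _ ≤ 1 * (x⁻¹ * (A * (1 + (1 / (Real.pi / 2 - θ)) ^ (7 / 4 : ℝ)))) := by
        apply mul_le_mul h2 h1 (norm_nonneg _) zero_le_one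
    _ = _ := one_mul _

/-- Lower bound near 2 π i q. -/
theorem GG_lower {α : ℝ} (hα : 0 < α) {q : ℕ} {p : ℤ} {η : ℝ} (hη : 0 < η)
    (hη1 : η ≤ 1 / (α + 7)) (hpq : |q * α - p| ≤ η) :
    Real.exp (-1) / (2 * (α + 7) * η ^ 2) ≤ ‖GG α (η + 2 * Real.pi * q * I)‖ := by
  have hη2 : η ≤ 1 := hη1.trans (by rw [div_le_one (by positivity)]; linarith)
  have hz1 : cexp (-(η + 2 * Real.pi * q * I : ℂ)) = (Real.exp (-η) : ℂ) := by
    have : (-(η + 2 * Real.pi * q * I : ℂ)) = ((-η : ℝ) : ℂ) + ((-(q : ℤ) : ℤ) : ℂ) * (2 * Real.pi * I) := by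
      push_cast; ring
    rw [this, Complex.exp_add, Complex.exp_int_mul_two_pi_mul_I, mul_one, ofReal_exp]
  have hz2 : cexp (-(α * (η + 2 * Real.pi * q * I) : ℂ)) =
      cexp (-(α * η + 2 * Real.pi * (q * α - p) * I : ℂ)) := by
    have : (-(α * (η + 2 * Real.pi * q * I) : ℂ)) =
        (-(α * η + 2 * Real.pi * (q * α - p) * I : ℂ)) + ((-p : ℤ) : ℂ) * (2 * Real.pi * I) := by
      push_cast; ring
    rw [this, Complex.exp_add, Complex.exp_int_mul_two_pi_mul_I, mul_one]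
  set w : ℂ := -(α * η + 2 * Real.pi * (q * α - p) * I : ℂ) with hw
  have hwn : ‖w‖ ≤ (α + 7) * η := by
    rw [hw, norm_neg]
    refine (norm_add_le _ _).trans ?_
    have n1 : ‖(α * η : ℂ)‖ = α * η := by
      rw [← ofReal_mul, Complex.norm_real, Real.norm_eq_abs, abs_of_pos (by positivity)]
    have n2 : ‖(2 * Real.pi * (q * α - p) * I : ℂ)‖ = 2 * Real.pi * |q * α - p| := by
      rw [norm_mul, norm_I, mul_one]
      have : (2 * Real.pi * (q * α - p) : ℂ) = ((2 * Real.pi * (q * α - p) : ℝ) : ℂ) := by push_cast; ring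
      rw [this, Complex.norm_real, Real.norm_eq_abs, abs_mul, abs_of_pos (by positivity)]
    rw [n1, n2]
    have hpi : 2 * Real.pi ≤ 7 := by have := Real.pi_lt_d2; linarith
    have : 2 * Real.pi * |q * α - p| ≤ 7 * η := by gcongr
    linarith
  have hwn1 : ‖w‖ ≤ 1 := by
    refine hwn.trans ?_
    calc (α + 7) * η ≤ (α + 7) * (1 / (α + 7)) := by gcongr
      _ = 1 := by field_simp
  have hd2 : ‖1 - cexp w‖ ≤ 2 * ((α + 7) * η) := by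
    rw [norm_sub_rev]
    refine (Complex.norm_exp_sub_one_le hwn1).trans ?_
    gcongr
  have hd1 : ‖1 - (Real.exp (-η) : ℂ)‖ ≤ η := by
    have h1 : Real.exp (-η) ≤ 1 := by rw [Real.exp_le_one_iff]; linarith
    have h2 : 1 - η ≤ Real.exp (-η) := by
      have := Real.add_one_le_exp (-η); linarith
    rw [← ofReal_one, ← ofReal_sub, Complex.norm_real, Real.norm_eq_abs, abs_of_nonneg (by linarith)]
    linarith
  have hne1 : (1 - (Real.exp (-η) : ℂ)) ≠ 0 := by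
    have hr : 0 < ((η : ℂ)).re := by simpa using hη
    have := one_sub_exp_ne_zero hr
    rwa [← ofReal_neg, ← ofReal_exp] at this
  have hzre : 0 < ((α : ℂ) * (η + 2 * Real.pi * q * I)).re := by
    rw [re_ofReal_mul]
    simp
    positivity
  have hne2 : (1 - cexp w) ≠ 0 := by
    rw [← hz2]
    exact one_sub_exp_ne_zero hzre
  unfold GG
  rw [hz1, hz2, norm_mul, norm_mul, norm_inv, norm_inv, Complex.norm_real, Real.norm_eq_abs,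
    Real.abs_exp]
  have hpos1 : 0 < ‖1 - (Real.exp (-η) : ℂ)‖ := norm_pos_iff.mpr hne1
  have hpos2 : 0 < ‖1 - cexp w‖ := norm_pos_iff.mpr hne2
  have he : Real.exp (-1) ≤ Real.exp (-η) := by
    apply Real.exp_le_exp.mpr; linarith
  calc Real.exp (-1) / (2 * (α + 7) * η ^ 2)
      = Real.exp (-1) * (η⁻¹ * (2 * ((α + 7) * η))⁻¹) := by
        field_simp
    _ ≤ Real.exp (-η) * (‖1 - (Real.exp (-η) : ℂ)‖⁻¹ * ‖1 - cexp w‖⁻¹) := by
        gcongr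

theorem lower_bound {α : ℝ} (hα : 0 < α) (β : ℕ → ℂ) {q : ℕ} (hq : 1 ≤ q) {p : ℤ} {η : ℝ}
    (hη : 0 < η) (hη1 : η ≤ 1 / (α + 7)) (hpq : |q * α - p| ≤ η) :
    Real.exp (-1) / (2 * (α + 7) * η ^ 2) - (‖β 0‖ + ‖β 1‖) ≤
      ‖hh α β 2 (η + 2 * Real.pi * q * I)‖ := by
  have h := GG_lower hα hη hη1 hpq
  set z : ℂ := η + 2 * Real.pi * q * I with hz
  have hq' : (1 : ℝ) ≤ q := by exact_mod_cast hq
  have hz1 : 1 ≤ ‖z‖ := by
    have h1 := abs_im_le_norm z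
    have h2 : z.im = 2 * Real.pi * q := by simp [hz]
    rw [h2, abs_of_pos (by positivity)] at h1
    have := Real.pi_gt_three
    nlinarith
  have hz0 : z ≠ 0 := by
    intro h0; rw [h0, norm_zero] at hz1; linarith
  have hzre : 0 < z.re := by simp [hz, hη]
  have hexp : ‖cexp (-z)‖ ≤ 1 := (norm_exp_neg_lt_one hzre).le
  have t0 : ‖β 0 * (cexp (-z) * (z ^ 0 / z ^ 2))‖ ≤ ‖β 0‖ := by
    rw [norm_mul, norm_mul, norm_div, norm_pow, norm_pow, pow_zero, one_div]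
    have : (‖z‖ ^ 2)⁻¹ ≤ 1 := inv_le_one_of_one_le₀ (one_le_pow₀ hz1)
    calc ‖β 0‖ * (‖cexp (-z)‖ * (‖z‖ ^ 2)⁻¹) ≤ ‖β 0‖ * (1 * 1) := by gcongr
      _ = _ := by ring
  have t1 : ‖β 1 * (cexp (-z) * (z ^ 1 / z ^ 2))‖ ≤ ‖β 1‖ := by
    have e : z ^ 1 / z ^ 2 = z⁻¹ := by field_simp
    rw [e, norm_mul, norm_mul, norm_inv]
    have : (‖z‖)⁻¹ ≤ 1 := inv_le_one_of_one_le₀ hz1
    calc ‖β 1‖ * (‖cexp (-z)‖ * ‖z‖⁻¹) ≤ ‖β 1‖ * (1 * 1) := by gcongr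
      _ = _ := by ring
  have e : hh α β 2 z = GG α z - (β 0 * (cexp (-z) * (z ^ 0 / z ^ 2)) +
      β 1 * (cexp (-z) * (z ^ 1 / z ^ 2))) := by
    unfold hh
    rw [Finset.sum_range_succ, Finset.sum_range_succ, Finset.sum_range_zero, zero_add]
  rw [e]
  have h5 := norm_sub_norm_le (GG α z) (β 0 * (cexp (-z) * (z ^ 0 / z ^ 2)) +
      β 1 * (cexp (-z) * (z ^ 1 / z ^ 2)))
  have h6 := norm_add_le (β 0 * (cexp (-z) * (z ^ 0 / z ^ 2)))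
    (β 1 * (cexp (-z) * (z ^ 1 / z ^ 2)))
  linarith

/-- The key inequality. -/
theorem key_ineq {α : ℝ} (hα : 0 < α) {β : ℕ → ℂ}
    (hβ : ∀ n : ℕ, (fun z : ℂ => gg α z - ∑ j ∈ Finset.range n, β j * z ^ j) =O[𝓝 0]
      fun z => ‖z‖ ^ n) {C : ℝ}
    (hC : ∀ t : ℝ, 1 ≤ t → ‖FF α β (1 + t * I)‖ ≤ C * t ^ (1 / 4 : ℝ)) :
    ∃ K : ℝ, 0 < K ∧ ∀ (q : ℕ) (p : ℤ) (η : ℝ), 1 ≤ q → 0 < η → η ≤ 1 / (α + 7) →
      |q * α - p| ≤ η → 1 ≤ K * q * η ^ (1 / 4 : ℝ) := by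
  obtain ⟨A, hA, hup⟩ := upper_bound hα hβ hC
  set c : ℝ := Real.exp (-1) / (2 * (α + 7)) with hc
  have hc0 : 0 < c := by positivity
  refine ⟨((‖β 0‖ + ‖β 1‖) + 16 * A) / c, by positivity, fun q p η hq hη hη1 hpq => ?_⟩
  have hlow := lower_bound hα β hq hη hη1 hpq
  set z : ℂ := η + 2 * Real.pi * q * I with hz
  have hη2 : η ≤ 1 := hη1.trans (by rw [div_le_one (by positivity)]; linarith)
  have hq' : (1 : ℝ) ≤ q := by exact_mod_cast hq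
  have hpi3 := Real.pi_gt_three
  have hpi := Real.pi_lt_d2
  have hzre : z.re = η := by simp [hz]
  have hzim : z.im = 2 * Real.pi * q := by simp [hz]
  have hzge : 2 * Real.pi * q ≤ ‖z‖ := by
    have h1 := abs_im_le_norm z
    rwa [hzim, abs_of_pos (by positivity)] at h1
  have hz1 : 1 ≤ ‖z‖ := by nlinarith
  have hz0 : z ≠ 0 := by
    intro h0; rw [h0, norm_zero] at hz1; linarith
  have hzle : ‖z‖ ≤ 8 * q := by
    have h1 := Complex.norm_le_abs_re_add_abs_im z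
    rw [hzre, hzim, abs_of_pos hη, abs_of_pos (by positivity)] at h1
    nlinarith
  set θ : ℝ := arg z with hθ
  have hcos : Real.cos θ = η / ‖z‖ := by rw [hθ, Complex.cos_arg hz0, hzre]
  have hθ0 : 0 ≤ θ := by
    rw [hθ, Complex.arg_nonneg_iff, hzim]; positivity
  have hθ2 : θ < Real.pi / 2 := by
    have h1 : |arg z| < Real.pi / 2 := by
      rw [Complex.abs_arg_lt_pi_div_two_iff]; left; rw [hzre]; exact hη
    exact (le_abs_self _).trans_lt h1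
  have hθ1 : 1 ≤ θ := by
    by_contra hcon
    push Not at hcon
    have h1 : Real.cos 1 < Real.cos θ :=
      Real.cos_lt_cos_of_nonneg_of_le_pi hθ0 (by linarith) hcon
    have h2 : (1 : ℝ) / 2 ≤ Real.cos 1 := by
      have := Real.one_sub_sq_div_two_le_cos (x := 1)
      norm_num at this ⊢
      linarith
    have h3 : η / ‖z‖ ≤ 1 / 6 := by
      rw [div_le_div_iff₀ (by positivity) (by norm_num)]
      nlinarith
    rw [hcos] at h1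
    linarith
  have hzeq : cexp (θ * I) * (‖z‖ : ℝ) = z := by
    rw [mul_comm]; exact Complex.norm_mul_exp_arg_mul_I z
  have hx : 0 < ‖z‖ := by linarith
  have hupz := hup θ ‖z‖ hθ1 hθ2 hx
  rw [hzeq] at hupz
  have hδ : η / ‖z‖ ≤ Real.pi / 2 - θ := by
    rw [← hcos, ← Real.sin_pi_div_two_sub]
    exact Real.sin_le (by linarith)
  have hδ0 : 0 < η / ‖z‖ := by positivity
  have hinvδ : 1 / (Real.pi / 2 - θ) ≤ ‖z‖ / η := by
    have h1 := one_div_le_one_div_of_le hδ0 hδ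
    rwa [one_div_div] at h1
  have hpow : (1 / (Real.pi / 2 - θ)) ^ (7 / 4 : ℝ) ≤ (‖z‖ / η) ^ (7 / 4 : ℝ) := by
    apply Real.rpow_le_rpow _ hinvδ (by norm_num)
    have : 0 < Real.pi / 2 - θ := by linarith
    positivity
  have hge1 : 1 ≤ ‖z‖ / η := by
    rw [le_div_iff₀ hη]; linarith
  have hpow1 : 1 ≤ (‖z‖ / η) ^ (7 / 4 : ℝ) := Real.one_le_rpow hge1 (by norm_num)
  -- upper bound in terms of q and η
  have hup2 : ‖hh α β 2 z‖ ≤ 16 * A * q * (η ^ (7 / 4 : ℝ))⁻¹ := by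
    refine hupz.trans ?_
    have h1 : A * (1 + (1 / (Real.pi / 2 - θ)) ^ (7 / 4 : ℝ)) ≤ A * (2 * (‖z‖ / η) ^ (7 / 4 : ℝ)) := by
      gcongr
      linarith
    have h2 : (‖z‖ / η) ^ (7 / 4 : ℝ) ≤ ‖z‖ ^ (2 : ℝ) * (η ^ (7 / 4 : ℝ))⁻¹ := by
      rw [Real.div_rpow hx.le hη.le, div_eq_mul_inv]
      have h3 : ‖z‖ ^ (7 / 4 : ℝ) ≤ ‖z‖ ^ (2 : ℝ) :=
        Real.rpow_le_rpow_of_exponent_le hz1 (by norm_num)
      exact mul_le_mul_of_nonneg_right h3 (by positivity)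
    calc ‖z‖⁻¹ * (A * (1 + (1 / (Real.pi / 2 - θ)) ^ (7 / 4 : ℝ)))
        ≤ ‖z‖⁻¹ * (A * (2 * (‖z‖ ^ (2 : ℝ) * (η ^ (7 / 4 : ℝ))⁻¹))) := by
          refine mul_le_mul_of_nonneg_left (h1.trans ?_) (by positivity)
          exact mul_le_mul_of_nonneg_left (mul_le_mul_of_nonneg_left h2 (by norm_num)) hA.le
      _ = 2 * A * ‖z‖ * (η ^ (7 / 4 : ℝ))⁻¹ := by
          rw [Real.rpow_two]; field_simp
      _ ≤ 2 * A * (8 * q) * (η ^ (7 / 4 : ℝ))⁻¹ := by gcongr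
      _ = _ := by ring
  have hcomb := hlow.trans hup2
  have e1 : Real.exp (-1) / (2 * (α + 7) * η ^ 2) = c * (η ^ 2)⁻¹ := by
    rw [hc]; field_simp
  rw [e1] at hcomb
  have hpe : η ^ 2 = η ^ (7 / 4 : ℝ) * η ^ (1 / 4 : ℝ) := by
    rw [← Real.rpow_add hη, ← Real.rpow_two]; norm_num
  have hη74 : 0 < η ^ (7 / 4 : ℝ) := by positivity
  have hη14 : 0 < η ^ (1 / 4 : ℝ) := by positivity
  have hη74' : η ^ (7 / 4 : ℝ) ≤ 1 := Real.rpow_le_one hη.le hη2 (by norm_num)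
  have h7 : c * (η ^ 2)⁻¹ ≤ ((‖β 0‖ + ‖β 1‖) + 16 * A) * q * (η ^ (7 / 4 : ℝ))⁻¹ := by
    have h8 : (‖β 0‖ + ‖β 1‖) ≤ (‖β 0‖ + ‖β 1‖) * q * (η ^ (7 / 4 : ℝ))⁻¹ := by
      have : 1 ≤ (η ^ (7 / 4 : ℝ))⁻¹ := (one_le_inv₀ hη74).mpr hη74'
      have h9 : 1 ≤ q * (η ^ (7 / 4 : ℝ))⁻¹ := one_le_mul_of_one_le_of_one_le hq' this
      calc (‖β 0‖ + ‖β 1‖) = (‖β 0‖ + ‖β 1‖) * 1 := by ring
        _ ≤ (‖β 0‖ + ‖β 1‖) * (q * (η ^ (7 / 4 : ℝ))⁻¹) := by gcongr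
        _ = _ := by ring
    calc c * (η ^ 2)⁻¹ ≤ (‖β 0‖ + ‖β 1‖) + 16 * A * q * (η ^ (7 / 4 : ℝ))⁻¹ := by linarith
      _ ≤ (‖β 0‖ + ‖β 1‖) * q * (η ^ (7 / 4 : ℝ))⁻¹ + 16 * A * q * (η ^ (7 / 4 : ℝ))⁻¹ := by linarith
      _ = _ := by ring
  have h10 : c ≤ ((‖β 0‖ + ‖β 1‖) + 16 * A) * q * η ^ (1 / 4 : ℝ) := by
    have hm := mul_le_mul_of_nonneg_right h7 (show 0 ≤ η ^ 2 by positivity)
    have e2 : c * (η ^ 2)⁻¹ * η ^ 2 = c := by field_simp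
    have e3 : ((‖β 0‖ + ‖β 1‖) + 16 * A) * q * (η ^ (7 / 4 : ℝ))⁻¹ * η ^ 2 =
        ((‖β 0‖ + ‖β 1‖) + 16 * A) * q * η ^ (1 / 4 : ℝ) := by
      rw [hpe]; field_simp
    rwa [e2, e3] at hm
  calc (1 : ℝ) = c / c := by field_simp
    _ ≤ (((‖β 0‖ + ‖β 1‖) + 16 * A) * q * η ^ (1 / 4 : ℝ)) / c := by gcongr
    _ = _ := by ring

end Pool.Agent.H27
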