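import Mathlib
import Pool.Agent.H27.A6

set_option autoImplicit false

namespace Pool.Agent.H27

open Complex Set MeasureTheory Filter Topology Asymptotics

theorem liouville_contra {α : ℝ} (hα : 0 < α) (hL : Liouville α) {K : ℝ} (hK : 0 < K)
    (h : ∀ (q : ℕ) (p : ℤ) (η : ℝ), 1 ≤ q → 0 < η → η ≤ 1 / (α + 7) →
      |q * α - p| ≤ η → 1 ≤ K * q * η ^ (1 / 4 : ℝ)) : False := by
  -- choose k large
  obtain ⟨k, hk⟩ : ∃ k : ℕ, K * (α + 7) < 2 ^ k := by
    obtain ⟨k, hk⟩ := exists_nat_gt (K * (α + 7))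
    exact ⟨k, hk.trans (by exact_mod_cast Nat.lt_two_pow_self)⟩
  obtain ⟨k', hk'⟩ : ∃ k : ℕ, (α + 7) < 2 ^ k := by
    obtain ⟨k, hk⟩ := exists_nat_gt (α + 7)
    exact ⟨k, hk.trans (by exact_mod_cast Nat.lt_two_pow_self)⟩
  set m : ℕ := k + k' with hm
  obtain ⟨p, b, hb1, hne, hlt⟩ := hL (4 * (m + 1) + 1)
  obtain ⟨q, rfl⟩ : ∃ q : ℕ, b = (q : ℤ) := ⟨b.toNat, by omega⟩
  have hq2 : 2 ≤ q := by omega
  have hq2' : (2 : ℝ) ≤ q := by exact_mod_cast hq2
  have hq0 : (0 : ℝ) < q := by linarith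
  simp only [Int.cast_natCast] at hne hlt
  set η : ℝ := |q * α - p| with hη
  have hη0 : 0 < η := by
    rw [hη, abs_pos]
    intro h0
    apply hne
    rw [eq_div_iff hq0.ne']
    linarith
  have hηlt : η < 1 / (q : ℝ) ^ (4 * (m + 1)) := by
    have e : η = q * |α - p / q| := by
      rw [hη, ← abs_of_pos hq0, ← abs_mul, abs_of_pos hq0]
      congr 1
      field_simp
    rw [e]
    calc q * |α - p / q| < q * (1 / (q : ℝ) ^ (4 * (m + 1) + 1)) := by gcongr
      _ = _ := by rw [pow_succ]; field_simp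
  have hqm : (2 : ℝ) ^ m ≤ (q : ℝ) ^ m := by gcongr
  have h2k : K < 2 ^ m := by
    have : K ≤ K * (α + 7) := by nlinarith
    rw [hm, pow_add]
    have h1 : (1 : ℝ) ≤ 2 ^ k' := one_le_pow₀ (by norm_num)
    have h2 : (0 : ℝ) < 2 ^ k := by positivity
    nlinarith
  have h2k' : (α + 7) < 2 ^ m := by
    rw [hm, pow_add]
    have h1 : (1 : ℝ) ≤ 2 ^ k := one_le_pow₀ (by norm_num)
    have h2 : (0 : ℝ) < 2 ^ k' := by positivity
    nlinarith
  have hη1 : η ≤ 1 / (α + 7) := by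
    refine hηlt.le.trans ?_
    apply one_div_le_one_div_of_le (by positivity)
    calc α + 7 ≤ 2 ^ m := h2k'.le
      _ ≤ (q : ℝ) ^ m := hqm
      _ ≤ (q : ℝ) ^ (4 * (m + 1)) := pow_le_pow_right₀ (by linarith) (by omega)
  have hfin := h q p η (by omega) hη0 hη1 le_rfl
  have hpow : η ^ (1 / 4 : ℝ) ≤ 1 / (q : ℝ) ^ (m + 1) := by
    have h1 : η ^ (1 / 4 : ℝ) ≤ (1 / (q : ℝ) ^ (4 * (m + 1))) ^ (1 / 4 : ℝ) :=
      Real.rpow_le_rpow hη0.le hηlt.le (by norm_num)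
    refine h1.trans (le_of_eq ?_)
    rw [mul_comm 4, pow_mul, ← one_div_pow, ← Real.rpow_natCast (1 / (q : ℝ) ^ (m + 1)) 4,
      ← Real.rpow_mul (by positivity)]
    norm_num
  have h5 : K * q * η ^ (1 / 4 : ℝ) ≤ K / (q : ℝ) ^ m := by
    calc K * q * η ^ (1 / 4 : ℝ) ≤ K * q * (1 / (q : ℝ) ^ (m + 1)) := by gcongr
      _ = _ := by rw [pow_succ]; field_simp
  have h6 : K / (q : ℝ) ^ m < 1 := by
    rw [div_lt_one (by positivity)]
    linarith
  linarith

theorem finrank_span_pair {α : ℝ} (hα : Irrational α) :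
    Module.finrank ℚ (Submodule.span ℚ (Set.range ![(1 : ℝ), α])) = 2 := by
  have hli : LinearIndependent ℚ ![(1 : ℝ), α] := by
    rw [LinearIndependent.pair_iff]
    intro s t hst
    have ht : t = 0 := by
      by_contra ht
      apply hα
      refine ⟨-s / t, ?_⟩
      have ht' : (t : ℝ) ≠ 0 := by exact_mod_cast ht
      rw [Rat.smul_def, Rat.smul_def] at hst
      push_cast
      field_simp
      linarith
    subst ht
    simpa using hst
  rw [finrank_span_eq_card hli]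
  simp

theorem liouvilleNumber_two_pos : 0 < liouvilleNumber 2 := by
  have h := liouville_liouvilleNumber (m := 2) le_rfl
  unfold liouvilleNumber
  have hs : Summable (fun i : ℕ => 1 / (2 : ℝ) ^ (Nat.factorial i)) := LiouvilleNumber.summable (by norm_num)
  exact hs.tsum_pos (fun i => by positivity) 0 (by positivity)

/-- The disproof, for every positive Liouville number. -/
theorem disproof {α : ℝ} (hα : 0 < α) (hL : Liouville α) :
    ∃ F : ℂ → ℂ,
      DifferentiableOn ℂ F {s : ℂ | ∀ k : ℕ, 1 ≤ k → k ≤ 2 → s ≠ (k : ℂ)} ∧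
      (∀ s : ℂ, (2 : ℝ) < s.re →
        F s = ∑' m : Fin 2 → ℕ, (((1 + ∑ j, (m j : ℝ) * (![1, α] : Fin 2 → ℝ) j : ℝ) : ℂ) ^ (-s))) ∧
      ¬ ∃ C : ℝ, ∀ t : ℝ, 1 ≤ t → ‖F (1 + t * I)‖ ≤ C * t ^ (1 / 4 : ℝ) := by
  obtain ⟨β, hβ⟩ := exists_beta hα
  refine ⟨FF α β, ?_, ?_, ?_⟩
  · intro s hs
    have h1 : s ≠ 1 := by simpa using hs 1 le_rfl (by norm_num)
    have h2 : s ≠ 2 := by simpa using hs 2 (by norm_num) le_rfl
    exact (differentiableAt_FF hα hβ h1 h2).differentiableWithinAt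
  · intro s hs
    rw [FF_eq_ZZ hα hβ hs]
    unfold ZZ
    refine tsum_congr (fun m => ?_)
    congr 2
    unfold pp
    rw [Fin.sum_univ_two]
    simp
    ring
  · rintro ⟨C, hC⟩
    obtain ⟨K, hK, h⟩ := key_ineq hα hβ hC
    exact liouville_contra hα hL hK h

end Pool.Agent.H27
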